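import Pool.Agent.Helper9.UB.Vec
import Pool.Agent.Helper59.RG.Small

/-!
Block INTER (UB-7).  The graphic and the cographic case.

`dec_graphic`: for `w : W` the vector `e ↦ s e * (Pi.single w 1 (h e) - Pi.single w 1 (t e))` is in
`fns v`, so there is a functional `g w` with these values; let `φ = LinearMap.pi g`.  Then
`φ (v e) = s e • (Pi.single (h e) 1 - Pi.single (t e) 1)`, which is a difference of unit vectors.
`φ` is injective on the span: if `y ∈ span ℚ (range v)`, `y ≠ 0`, take a functional `f` with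
`f y ≠ 0` (`exists_dual` in RG/Small or `Module.forall_dual_apply_eq_zero_iff`); `f ∘ v = s e * (π (h e) - π (t e))`
for some `π`, so `f` and `∑ w, π w • g w` agree on the span and `f y = ∑ w, π w * (φ y) w = 0`.
Use `Dec.graphic`.

`dec_cographic`: `Dec.cographic` for `X' = Set.range (fun e => s e • v e)` with `u e = s e • v e`: a
vector `a` is a dependency of `u` iff `a e * s e` is a dependency of `v`, iff
`a e * s e = s e * (π (h e) - π (t e))`, iff `a e = π (h e) - π (t e)` (`s e * s e = 1`).  Then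
`dec_sub` (`v e` is `u e` or `- u e`).
-/

set_option autoImplicit false

namespace SEY.UB

open Submodule Module

variable {E V : Type} [Fintype E] [DecidableEq E] [AddCommGroup V] [Module ℚ V]
variable {W : Type} [Fintype W] [DecidableEq W]


theorem sum_single_diff (π : W → ℚ) (a b : W) (c : ℚ) :
    ∑ w, π w * (c * ((Pi.single w 1 : W → ℚ) a - (Pi.single w 1 : W → ℚ) b)) = c * (π a - π b) := by
  have h1 : ∀ w, π w * (c * ((Pi.single w 1 : W → ℚ) a - (Pi.single w 1 : W → ℚ) b)) =
      c * ((if a = w then π w else 0) - (if b = w then π w else 0)) := by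
    intro w
    rw [Pi.single_apply, Pi.single_apply]
    split_ifs <;> ring
  rw [Finset.sum_congr rfl (fun w _ => h1 w), ← Finset.mul_sum, Finset.sum_sub_distrib]
  simp

theorem dec_graphic (v : E → V) (h t : E → W) (s : E → ℚ) (hs : ∀ e, s e = 1 ∨ s e = -1)
    (hP : ∀ p : E → ℚ, p ∈ fns v ↔ ∃ π : W → ℚ, ∀ e, p e = s e * (π (h e) - π (t e))) :
    RC.Dec V (Set.range v) := by
  have hex : ∀ w : W, ∃ g : V →ₗ[ℚ] ℚ, ∀ e,
      s e * ((Pi.single w 1 : W → ℚ) (h e) - (Pi.single w 1 : W → ℚ) (t e)) = g (v e) :=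
    fun w => (hP _).2 ⟨Pi.single w 1, fun e => rfl⟩
  choose g hg using hex
  refine RC.Dec.graphic (Set.range v) W (LinearMap.pi g) ?_ ?_
  · intro y hy h0
    by_contra hne
    obtain ⟨f, hf⟩ := RC.Gut.exists_dual hne
    obtain ⟨π, hπ⟩ := (hP (fun e => f (v e))).1 ⟨f, fun e => rfl⟩
    have hker : span ℚ (Set.range v) ≤ LinearMap.ker (f - ∑ w, π w • g w) := by
      rw [span_le]
      rintro _ ⟨e, rfl⟩
      rw [SetLike.mem_coe, LinearMap.mem_ker, LinearMap.sub_apply, LinearMap.sum_apply]
      have h1 : ∑ w, (π w • g w) (v e) = s e * (π (h e) - π (t e)) := by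
        rw [← sum_single_diff π (h e) (t e) (s e)]
        exact Finset.sum_congr rfl (fun w _ => by
          rw [LinearMap.smul_apply, smul_eq_mul, hg w e])
      rw [h1, ← hπ e, sub_self]
    have h2 := hker hy
    rw [LinearMap.mem_ker, LinearMap.sub_apply, LinearMap.sum_apply, hf] at h2
    have h3 : ∑ w, (π w • g w) y = 0 := by
      refine Finset.sum_eq_zero (fun w _ => ?_)
      have h4 := congrFun h0 w
      rw [LinearMap.pi_apply, Pi.zero_apply] at h4
      rw [LinearMap.smul_apply, h4, smul_zero]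
    rw [h3, sub_zero] at h2
    exact one_ne_zero h2
  · rintro _ ⟨e, rfl⟩
    have h1 : (LinearMap.pi g) (v e) = s e • ((Pi.single (h e) 1 : W → ℚ) - Pi.single (t e) 1) := by
      funext w
      rw [LinearMap.pi_apply, ← hg w e, Pi.smul_apply, Pi.sub_apply, smul_eq_mul]
      simp only [Pi.single_apply, eq_comm]
    rcases hs e with h2 | h2
    · exact ⟨h e, t e, by rw [h1, h2, one_smul]⟩
    · exact ⟨t e, h e, by rw [h1, h2, neg_one_smul, neg_sub]⟩

theorem dec_cographic (v : E → V) (h t : E → W) (s : E → ℚ) (hs : ∀ e, s e = 1 ∨ s e = -1)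
    (hP : ∀ p : E → ℚ, p ∈ deps v ↔ ∃ π : W → ℚ, ∀ e, p e = s e * (π (h e) - π (t e))) :
    RC.Dec V (Set.range v) := by
  have hss : ∀ e, s e * s e = 1 := by
    intro e
    rcases hs e with h1 | h1 <;> rw [h1] <;> norm_num
  have h1 : RC.Dec V (Set.range (fun e => s e • v e)) := by
    refine RC.Dec.cographic _ E W (fun e => s e • v e) h t ?_ ?_
    · intro a
      have h2 : (∑ e, a e • s e • v e = 0) ↔ (fun e => a e * s e) ∈ deps v := by
        rw [mem_deps]
        have h3 : ∀ e, a e • s e • v e = (a e * s e) • v e := fun e => smul_smul _ _ _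
        simp only [h3]
      rw [h2, hP]
      constructor
      · rintro ⟨π, hπ⟩
        refine ⟨π, fun e => ?_⟩
        have h4 : a e * s e = s e * (π (h e) - π (t e)) := hπ e
        calc a e = (a e * s e) * s e := by rw [mul_assoc, hss, mul_one]
          _ = (s e * s e) * (π (h e) - π (t e)) := by rw [h4]; ring
          _ = _ := by rw [hss, one_mul]
      · rintro ⟨π, hπ⟩
        exact ⟨π, fun e => by rw [hπ e]; ring⟩
    · rintro _ ⟨e, rfl⟩
      exact ⟨e, rfl⟩
  refine RC.Gut.dec_sub h1 ?_
  rintro _ ⟨e, rfl⟩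
  right
  rcases hs e with h2 | h2
  · left
    exact ⟨e, by simp only [h2, one_smul]⟩
  · right
    exact ⟨e, by simp only [h2, neg_one_smul]⟩

end SEY.UB
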