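import Pool.Agent.Helper9.UB.Min
import Pool.Agent.Helper59.RG.Small

/-!
Block INTER (UB-8).  The `R10` case.

`mn_of_isIso` gives `φ : Fin 10 → E` (surjective) and `Mn v R10 φ ∅`.  `Mn.sgn` (with explicit
coefficients; the side conditions are closed by `decide`, all row combinations of weight 4 are
minimal) gives functionals `f 0, ..., f 4` signing the rows
`0: 0569, 1: 1567, 2: 2678, 3: 3789, 4: 4589` (the entries are the elements `φ j`); multiplying by `-1` we may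
assume `f i (φ i) = 1`.  `Mn.vanish` with `B = {0, 1, 2, 3, 4}`: every `p ∈ fns v` is
`∑ i, p (φ i) • f i` on all elements.

Let `a i j = f i (φ j)` for `j = 5, ..., 9` (nonzero, `1` or `-1`, exactly on the supports above).
The sums `i + (i + 1)` of adjacent rows have weight 4 and are signed by some
`g = x f i + y f (i + 1)`, `x, y = 1, -1`, which vanishes on the two common elements `j, k` of the two
rows: `x a i j + y a (i+1) j = 0`, same for `k`, so
`a i j * a (i+1) j = a i k * a (i+1) k = - x y`.  (common elements: rows 0, 1: 5, 6; rows 1, 2: 6, 7;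
rows 2, 3: 7, 8; rows 3, 4: 8, 9; rows 4, 0: 5, 9.)  The sum of the rows 0, 1, 3 has support 0138: it
is signed by `g = x f 0 + y f 1 + z f 3` which vanishes on 5, 6, 7, 9, so
`a 0 5 * a 1 5 = - x y`, `a 1 7 * a 3 7 = - y z`, `a 0 9 * a 3 9 = - x z` and the product of these
three is `-1`.

Let `b i j = a i j * (RC.R10 j i)` (`RC.R10 j i = 1, -1` on the supports).  The entries of `RC.R10` satisfy
the same relations, so `b` satisfies: for adjacent rows `b i j * b (i+1) j = b i k * b (i+1) k`, and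
`b 0 5 * b 1 5 * b 1 7 * b 3 7 * b 0 9 * b 3 9 = 1`.  Hence there are signs `r i`, `s j` with
`b i j = r i * s j`: `r 1 = 1`, `s 5 = b 1 5`, `s 6 = b 1 6`, `s 7 = b 1 7`, `r 0 = b 0 5 * s 5`,
`r 2 = b 2 6 * s 6`, `r 3 = b 3 7 * s 7`, `r 4 = b 4 5 * s 5`, `s 8 = b 2 8 * r 2`,
`s 9 = b 0 9 * r 0`.  (Checks: 06 by rows 0, 1; 27 by rows 1, 2; 38 by rows 2, 3; 49 by rows 4, 0; 39 by the
last relation; 48 by rows 3, 4.)

Let `ψ : V →ₗ (Fin 5 → ℚ)`, `ψ x i = r i * F i x` where `F i` is the functional of `f i`.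
For `j ≥ 5`: `ψ (v (φ j)) i = r i * a i j = r i * b i j * RC.R10 j i = s j * RC.R10 j i`
(`RC.R10 j i` is `1, -1` on the support), and `ψ (v (φ i)) = r i • RC.R10 i` for `i < 5`.  So each
`ψ (v e)` is `RC.R10 j` or `- RC.R10 j` for some `j`.  `ψ` is injective on the span: for
`y` in the span, `y ≠ 0`, take a functional `f` with `f y ≠ 0`; `f = ∑ i, f (v (φ i)) • F i` on the span.

The target follows from `Dec.emb` with `f = ψ`, `Y = Set.range RC.R10` and `Dec.r10` (`φ = id`) for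
`Y`.
-/

set_option autoImplicit false

namespace SEY.UB

open Submodule Module

variable {E V : Type} [Fintype E] [DecidableEq E] [AddCommGroup V] [Module ℚ V]

/-- The coefficient vectors of the rows, of the sums of adjacent rows and of the sum of the rows
`0, 1, 3`. -/
def cs : Fin 11 → Fin 5 → ZMod 2 :=
  ![![1, 0, 0, 0, 0], ![0, 1, 0, 0, 0], ![0, 0, 1, 0, 0], ![0, 0, 0, 1, 0], ![0, 0, 0, 0, 1],
    ![1, 1, 0, 0, 0], ![0, 1, 1, 0, 0], ![0, 0, 1, 1, 0], ![0, 0, 0, 1, 1], ![1, 0, 0, 0, 1],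
    ![1, 1, 0, 1, 0]]

theorem cs_ne : ∀ k : Fin 11, ∃ j : Fin 10, ∑ i, cs k i * R10 i j ≠ 0 := by decide +kernel

theorem cs_min : ∀ k : Fin 11, ∀ c' : Fin 5 → ZMod 2, (∃ j : Fin 10, ∑ i, c' i * R10 i j ≠ 0) →
    (∀ j : Fin 10, ∑ i, cs k i * R10 i j = 0 → ∑ i, c' i * R10 i j = 0) →
      ∀ j : Fin 10, ∑ i, c' i * R10 i j = ∑ i, cs k i * R10 i j := by decide +kernel

theorem r10_span : ∀ c : Fin 5 → ZMod 2,
    (∀ b ∈ ({0, 1, 2, 3, 4} : Finset (Fin 10)), ∑ i, c i * R10 i b = 0) →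
      ∀ j, ∑ i, c i * R10 i j = 0 := by decide +kernel

theorem rel2 {x y a b : ℚ} (hy : y * y = 1) (ha : a * a = 1)
    (e : 0 = x * a + y * b) : a * b = -(x * y) := by
  linear_combination -(a * y) * e - x * y * ha - a * b * hy

theorem r10_signs (A : Fin 5 → Fin 10 → ℚ) (h0 : ∀ i j, R10 i j = 0 → A i j = 0)
    (h1 : ∀ i j, R10 i j = 1 → A i j * A i j = 1)
    (d0 : A 0 0 = 1) (d1 : A 1 1 = 1) (d2 : A 2 2 = 1) (d3 : A 3 3 = 1) (d4 : A 4 4 = 1)
    (e01 : A 0 5 * A 1 5 = A 0 6 * A 1 6) (e12 : A 1 6 * A 2 6 = A 1 7 * A 2 7)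
    (e23 : A 2 7 * A 3 7 = A 2 8 * A 3 8) (e34 : A 3 8 * A 4 8 = A 3 9 * A 4 9)
    (e40 : A 4 5 * A 0 5 = A 4 9 * A 0 9)
    (e013 : (A 0 5 * A 1 5) * (A 1 7 * A 3 7) * (A 0 9 * A 3 9) = -1) :
    ∃ (r : Fin 5 → ℚ) (s : Fin 10 → ℚ), (∀ i, r i * r i = 1) ∧ (∀ j, s j * s j = 1) ∧
      ∀ i j, r i * A i j = s j * RC.R10 j i := by
  have q05 := h1 0 5 (by decide)
  have q06 := h1 0 6 (by decide)
  have q09 := h1 0 9 (by decide)
  have q15 := h1 1 5 (by decide)
  have q16 := h1 1 6 (by decide)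
  have q17 := h1 1 7 (by decide)
  have q26 := h1 2 6 (by decide)
  have q27 := h1 2 7 (by decide)
  have q28 := h1 2 8 (by decide)
  have q37 := h1 3 7 (by decide)
  have q38 := h1 3 8 (by decide)
  have q39 := h1 3 9 (by decide)
  have q45 := h1 4 5 (by decide)
  have q48 := h1 4 8 (by decide)
  have q49 := h1 4 9 (by decide)
  have c06 : A 0 5 * A 1 5 * A 0 6 = A 1 6 := by
    linear_combination (A 0 6) * e01 + (A 1 6) * q06
  have c27 : A 2 6 * A 1 6 * A 2 7 = A 1 7 := by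
    linear_combination (A 2 7) * e12 + (A 1 7) * q27
  have c38 : A 3 7 * A 1 7 * A 3 8 = A 2 8 * A 2 6 * A 1 6 := by
    linear_combination (A 2 7 * A 3 8 * A 1 7) * e23 - A 3 7 * A 1 7 * A 3 8 * q27
      + A 2 8 * A 2 7 * A 1 7 * q38 - A 2 8 * e12
  have c49 : A 4 5 * A 1 5 * A 4 9 = A 0 9 * A 0 5 * A 1 5 := by
    linear_combination A 1 5 * ((A 4 9 * A 0 5) * e40 - A 4 9 * A 4 5 * q05 + A 0 5 * A 0 9 * q49)
  have c39 : A 3 7 * A 1 7 * A 3 9 = -(A 0 9 * A 0 5 * A 1 5) := by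
    linear_combination (A 0 5 * A 1 5 * A 0 9) * e013
      - A 3 7 * A 1 7 * A 3 9 * (A 1 5 ^ 2 * A 0 9 ^ 2 * q05 + A 0 9 ^ 2 * q15 + q09)
  have c48 : A 4 5 * A 1 5 * A 4 8 = -(A 2 8 * A 2 6 * A 1 6) := by
    linear_combination A 4 5 * A 1 5 * A 3 8 * e34 - A 4 5 * A 1 5 * A 4 8 * q38
      + A 3 8 * A 3 9 * c49 + A 3 8 * A 3 9 * c39 - A 3 8 * A 3 7 * A 1 7 * q39 - c38
  have sq2 : ∀ {a b : ℚ}, a * a = 1 → b * b = 1 → (a * b) * (a * b) = 1 := by
    intro a b ha hb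
    linear_combination b * b * ha + hb
  have sqn : ∀ {a : ℚ}, a * a = 1 → (-a) * (-a) = 1 := by
    intro a ha
    linear_combination ha
  have r0 := sqn (sq2 q05 q15)
  have r2 := sqn (sq2 q26 q16)
  have r3 := sq2 q37 q17
  have r4 := sq2 q45 q15
  refine ⟨![-(A 0 5 * A 1 5), 1, -(A 2 6 * A 1 6), A 3 7 * A 1 7, A 4 5 * A 1 5],
    ![-(A 0 5 * A 1 5), 1, -(A 2 6 * A 1 6), A 3 7 * A 1 7, A 4 5 * A 1 5,
      A 1 5, -A 1 6, A 1 7, -(A 2 8 * A 2 6 * A 1 6), -(A 0 9 * A 0 5 * A 1 5)], ?_, ?_, ?_⟩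
  · intro i
    fin_cases i
    · exact r0
    · exact one_mul 1
    · exact r2
    · exact r3
    · exact r4
  · intro j
    fin_cases j
    · exact r0
    · exact one_mul 1
    · exact r2
    · exact r3
    · exact r4
    · exact q15
    · exact sqn q16
    · exact q17
    · exact sqn (sq2 (sq2 q28 q26) q16)
    · exact sqn (sq2 (sq2 q09 q05) q15)
  · have zz : ∀ (i : Fin 5) (j : Fin 10), R10 i j = 0 → RC.R10 j i = 0 := by decide +kernel
    intro i j
    by_cases hz : R10 i j = 0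
    · rw [h0 i j hz, zz i j hz, mul_zero, mul_zero]
    · fin_cases i <;> fin_cases j <;> first
        | exact absurd (by decide) hz
        | skip
      · show -(A 0 5 * A 1 5) * A 0 0 = -(A 0 5 * A 1 5) * 1
        rw [d0]
      · show -(A 0 5 * A 1 5) * A 0 5 = A 1 5 * (-1)
        linear_combination -(A 1 5) * q05
      · show -(A 0 5 * A 1 5) * A 0 6 = -A 1 6 * 1
        linear_combination -c06
      · show -(A 0 5 * A 1 5) * A 0 9 = -(A 0 9 * A 0 5 * A 1 5) * 1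
        ring
      · show (1 : ℚ) * A 1 1 = 1 * 1
        rw [d1]
      · show (1 : ℚ) * A 1 5 = A 1 5 * 1
        ring
      · show (1 : ℚ) * A 1 6 = -A 1 6 * (-1)
        ring
      · show (1 : ℚ) * A 1 7 = A 1 7 * 1
        ring
      · show -(A 2 6 * A 1 6) * A 2 2 = -(A 2 6 * A 1 6) * 1
        rw [d2]
      · show -(A 2 6 * A 1 6) * A 2 6 = -A 1 6 * 1
        linear_combination -(A 1 6) * q26
      · show -(A 2 6 * A 1 6) * A 2 7 = A 1 7 * (-1)
        linear_combination -c27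
      · show -(A 2 6 * A 1 6) * A 2 8 = -(A 2 8 * A 2 6 * A 1 6) * 1
        ring
      · show A 3 7 * A 1 7 * A 3 3 = A 3 7 * A 1 7 * 1
        rw [d3]
      · show A 3 7 * A 1 7 * A 3 7 = A 1 7 * 1
        linear_combination A 1 7 * q37
      · show A 3 7 * A 1 7 * A 3 8 = -(A 2 8 * A 2 6 * A 1 6) * (-1)
        linear_combination c38
      · show A 3 7 * A 1 7 * A 3 9 = -(A 0 9 * A 0 5 * A 1 5) * 1
        linear_combination c39
      · show A 4 5 * A 1 5 * A 4 4 = A 4 5 * A 1 5 * 1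
        rw [d4]
      · show A 4 5 * A 1 5 * A 4 5 = A 1 5 * 1
        linear_combination A 1 5 * q45
      · show A 4 5 * A 1 5 * A 4 8 = -(A 2 8 * A 2 6 * A 1 6) * 1
        linear_combination c48
      · show A 4 5 * A 1 5 * A 4 9 = -(A 0 9 * A 0 5 * A 1 5) * (-1)
        linear_combination c49

/-- The positions of the unit vectors. -/
def ib : Fin 5 → Fin 10 := ![0, 1, 2, 3, 4]

theorem dec_r10 {v : E → V} (hU : RC.Uni (Set.range v)) (hiso : IsIso R10 (bm v)) :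
    RC.Dec V (Set.range v) := by
  obtain ⟨φ, hφ, hM⟩ := mn_of_isIso hiso
  have hG : ∀ k : Fin 11, ∃ G : V →ₗ[ℚ] ℚ, ∀ j, (∑ i, cs k i * R10 i j = 0 ∧ G (v (φ j)) = 0) ∨
      (∑ i, cs k i * R10 i j = 1 ∧ (G (v (φ j)) = 1 ∨ G (v (φ j)) = -1)) := by
    intro k
    obtain ⟨p, ⟨f, hf⟩, -, hp⟩ := hM.sgn hU (cs k) (cs_ne k) (cs_min k)
    exact ⟨f, fun j => by rw [← hf]; exact hp j⟩
  choose G hG using hG
  have hG0 : ∀ k j, ∑ i, cs k i * R10 i j = 0 → G k (v (φ j)) = 0 := by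
    intro k j h
    rcases hG k j with h1 | h1
    · exact h1.2
    · rw [h] at h1
      exact absurd h1.1 (by decide)
  have hG1 : ∀ k j, ∑ i, cs k i * R10 i j = 1 → G k (v (φ j)) * G k (v (φ j)) = 1 := by
    intro k j h
    rcases hG k j with h1 | h1
    · rw [h] at h1
      exact absurd h1.1 (by decide)
    · rcases h1.2 with h2 | h2 <;> rw [h2] <;> norm_num
  let kk : Fin 5 → Fin 11 := ![0, 1, 2, 3, 4]
  have hkk : ∀ (i : Fin 5) (j : Fin 10), ∑ l, cs (kk i) l * R10 l j = R10 i j := by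
    decide +kernel
  have hib : ∀ i l : Fin 5, R10 i (ib l) = if i = l then 1 else 0 := by decide +kernel
  let F : Fin 5 → (V →ₗ[ℚ] ℚ) := fun i => (G (kk i) (v (φ (ib i)))) • G (kk i)
  have hF0 : ∀ i j, R10 i j = 0 → F i (v (φ j)) = 0 := by
    intro i j h
    simp only [F, LinearMap.smul_apply, smul_eq_mul]
    rw [hG0 (kk i) j (by rw [hkk]; exact h), mul_zero]
  have hgi : ∀ i, G (kk i) (v (φ (ib i))) * G (kk i) (v (φ (ib i))) = 1 := fun i =>
    hG1 (kk i) (ib i) (by rw [hkk, hib, if_pos rfl])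
  have hF1 : ∀ i j, R10 i j = 1 → F i (v (φ j)) * F i (v (φ j)) = 1 := by
    intro i j h
    simp only [F, LinearMap.smul_apply, smul_eq_mul]
    have h1 := hG1 (kk i) j (by rw [hkk]; exact h)
    have h2 := hgi i
    linear_combination G (kk i) (v (φ j)) * G (kk i) (v (φ j)) * h2 + h1
  have hFd : ∀ i, F i (v (φ (ib i))) = 1 := by
    intro i
    simp only [F, LinearMap.smul_apply, smul_eq_mul]
    exact hgi i
  have hexp : ∀ (g : V →ₗ[ℚ] ℚ) (j : Fin 10),
      g (v (φ j)) = ∑ i, g (v (φ (ib i))) * F i (v (φ j)) := by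
    intro g j
    have h1 := hM.vanish hU {0, 1, 2, 3, 4} r10_span
      (p := fun e => (g - ∑ i, g (v (φ (ib i))) • F i) (v e)) ⟨_, fun e => rfl⟩ (by simp) ?_ j
    · simp only [LinearMap.sub_apply, LinearMap.sum_apply, LinearMap.smul_apply,
        smul_eq_mul] at h1
      linarith
    · intro b hb
      obtain ⟨l, rfl⟩ : ∃ l, ib l = b := by
        revert b
        decide +kernel
      simp only [LinearMap.sub_apply, LinearMap.sum_apply, LinearMap.smul_apply, smul_eq_mul]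
      rw [Finset.sum_eq_single l, hFd, mul_one, sub_self]
      · intro i _ hi
        rw [hF0 i (ib l) (by rw [hib, if_neg hi]), mul_zero]
      · intro h
        exact absurd (Finset.mem_univ l) h
  have hexp5 : ∀ (g : V →ₗ[ℚ] ℚ) (j : Fin 10), g (v (φ j)) = g (v (φ 0)) * F 0 (v (φ j)) +
      g (v (φ 1)) * F 1 (v (φ j)) + g (v (φ 2)) * F 2 (v (φ j)) + g (v (φ 3)) * F 3 (v (φ j)) +
      g (v (φ 4)) * F 4 (v (φ j)) := by
    intro g j
    have h1 := hexp g j
    rw [Fin.sum_univ_five] at h1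
    exact h1
  have e01 : F 0 (v (φ 5)) * F 1 (v (φ 5)) = F 0 (v (φ 6)) * F 1 (v (φ 6)) := by
    have z2 := hG0 5 2 (by decide +kernel)
    have z3 := hG0 5 3 (by decide +kernel)
    have z4 := hG0 5 4 (by decide +kernel)
    have x2 := hG1 5 0 (by decide +kernel)
    have y2 := hG1 5 1 (by decide +kernel)
    have ej := hexp5 (G 5) 5
    have el := hexp5 (G 5) 6
    rw [hG0 5 5 (by decide +kernel)] at ej
    rw [hG0 5 6 (by decide +kernel)] at el
    have a1 := hF1 0 5 (by decide +kernel)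
    have a2 := hF1 0 6 (by decide +kernel)
    simp only [z2, z3, z4, zero_mul, zero_add, add_zero] at ej el
    have b1 := rel2 y2 a1 (show 0 = G 5 (v (φ 0)) * F 0 (v (φ 5)) + G 5 (v (φ 1)) * F 1 (v (φ 5)) by linarith)
    have b2 := rel2 y2 a2 (show 0 = G 5 (v (φ 0)) * F 0 (v (φ 6)) + G 5 (v (φ 1)) * F 1 (v (φ 6)) by linarith)
    rw [b1, b2]
  have e12 : F 1 (v (φ 6)) * F 2 (v (φ 6)) = F 1 (v (φ 7)) * F 2 (v (φ 7)) := by
    have z0 := hG0 6 0 (by decide +kernel)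
    have z3 := hG0 6 3 (by decide +kernel)
    have z4 := hG0 6 4 (by decide +kernel)
    have x2 := hG1 6 1 (by decide +kernel)
    have y2 := hG1 6 2 (by decide +kernel)
    have ej := hexp5 (G 6) 6
    have el := hexp5 (G 6) 7
    rw [hG0 6 6 (by decide +kernel)] at ej
    rw [hG0 6 7 (by decide +kernel)] at el
    have a1 := hF1 1 6 (by decide +kernel)
    have a2 := hF1 1 7 (by decide +kernel)
    simp only [z0, z3, z4, zero_mul, zero_add, add_zero] at ej el
    have b1 := rel2 y2 a1 (show 0 = G 6 (v (φ 1)) * F 1 (v (φ 6)) + G 6 (v (φ 2)) * F 2 (v (φ 6)) by linarith)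
    have b2 := rel2 y2 a2 (show 0 = G 6 (v (φ 1)) * F 1 (v (φ 7)) + G 6 (v (φ 2)) * F 2 (v (φ 7)) by linarith)
    rw [b1, b2]
  have e23 : F 2 (v (φ 7)) * F 3 (v (φ 7)) = F 2 (v (φ 8)) * F 3 (v (φ 8)) := by
    have z0 := hG0 7 0 (by decide +kernel)
    have z1 := hG0 7 1 (by decide +kernel)
    have z4 := hG0 7 4 (by decide +kernel)
    have x2 := hG1 7 2 (by decide +kernel)
    have y2 := hG1 7 3 (by decide +kernel)
    have ej := hexp5 (G 7) 7
    have el := hexp5 (G 7) 8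
    rw [hG0 7 7 (by decide +kernel)] at ej
    rw [hG0 7 8 (by decide +kernel)] at el
    have a1 := hF1 2 7 (by decide +kernel)
    have a2 := hF1 2 8 (by decide +kernel)
    simp only [z0, z1, z4, zero_mul, zero_add, add_zero] at ej el
    have b1 := rel2 y2 a1 (show 0 = G 7 (v (φ 2)) * F 2 (v (φ 7)) + G 7 (v (φ 3)) * F 3 (v (φ 7)) by linarith)
    have b2 := rel2 y2 a2 (show 0 = G 7 (v (φ 2)) * F 2 (v (φ 8)) + G 7 (v (φ 3)) * F 3 (v (φ 8)) by linarith)
    rw [b1, b2]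
  have e34 : F 3 (v (φ 8)) * F 4 (v (φ 8)) = F 3 (v (φ 9)) * F 4 (v (φ 9)) := by
    have z0 := hG0 8 0 (by decide +kernel)
    have z1 := hG0 8 1 (by decide +kernel)
    have z2 := hG0 8 2 (by decide +kernel)
    have x2 := hG1 8 3 (by decide +kernel)
    have y2 := hG1 8 4 (by decide +kernel)
    have ej := hexp5 (G 8) 8
    have el := hexp5 (G 8) 9
    rw [hG0 8 8 (by decide +kernel)] at ej
    rw [hG0 8 9 (by decide +kernel)] at el
    have a1 := hF1 3 8 (by decide +kernel)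
    have a2 := hF1 3 9 (by decide +kernel)
    simp only [z0, z1, z2, zero_mul, zero_add, add_zero] at ej el
    have b1 := rel2 y2 a1 (show 0 = G 8 (v (φ 3)) * F 3 (v (φ 8)) + G 8 (v (φ 4)) * F 4 (v (φ 8)) by linarith)
    have b2 := rel2 y2 a2 (show 0 = G 8 (v (φ 3)) * F 3 (v (φ 9)) + G 8 (v (φ 4)) * F 4 (v (φ 9)) by linarith)
    rw [b1, b2]
  have e40 : F 4 (v (φ 5)) * F 0 (v (φ 5)) = F 4 (v (φ 9)) * F 0 (v (φ 9)) := by
    have z1 := hG0 9 1 (by decide +kernel)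
    have z2 := hG0 9 2 (by decide +kernel)
    have z3 := hG0 9 3 (by decide +kernel)
    have x2 := hG1 9 4 (by decide +kernel)
    have y2 := hG1 9 0 (by decide +kernel)
    have ej := hexp5 (G 9) 5
    have el := hexp5 (G 9) 9
    rw [hG0 9 5 (by decide +kernel)] at ej
    rw [hG0 9 9 (by decide +kernel)] at el
    have a1 := hF1 4 5 (by decide +kernel)
    have a2 := hF1 4 9 (by decide +kernel)
    simp only [z1, z2, z3, zero_mul, zero_add, add_zero] at ej el
    have b1 := rel2 y2 a1 (show 0 = G 9 (v (φ 4)) * F 4 (v (φ 5)) + G 9 (v (φ 0)) * F 0 (v (φ 5)) by linarith)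
    have b2 := rel2 y2 a2 (show 0 = G 9 (v (φ 4)) * F 4 (v (φ 9)) + G 9 (v (φ 0)) * F 0 (v (φ 9)) by linarith)
    rw [b1, b2]
  have e013 : (F 0 (v (φ 5)) * F 1 (v (φ 5))) * (F 1 (v (φ 7)) * F 3 (v (φ 7))) *
      (F 0 (v (φ 9)) * F 3 (v (φ 9))) = -1 := by
    have z2 := hG0 10 2 (by decide +kernel)
    have z4 := hG0 10 4 (by decide +kernel)
    have x2 := hG1 10 0 (by decide +kernel)
    have y2 := hG1 10 1 (by decide +kernel)
    have w2 := hG1 10 3 (by decide +kernel)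
    have g5 := hexp5 (G 10) 5
    have g7 := hexp5 (G 10) 7
    have g9 := hexp5 (G 10) 9
    rw [hG0 10 5 (by decide +kernel), z2, z4, hF0 3 5 (by decide +kernel)] at g5
    rw [hG0 10 7 (by decide +kernel), z2, z4, hF0 0 7 (by decide +kernel)] at g7
    rw [hG0 10 9 (by decide +kernel), z2, z4, hF0 1 9 (by decide +kernel)] at g9
    have b5 := rel2 y2 (hF1 0 5 (by decide +kernel))
      (show 0 = G 10 (v (φ 0)) * F 0 (v (φ 5)) + G 10 (v (φ 1)) * F 1 (v (φ 5)) by linarith)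
    have b7 := rel2 w2 (hF1 1 7 (by decide +kernel))
      (show 0 = G 10 (v (φ 1)) * F 1 (v (φ 7)) + G 10 (v (φ 3)) * F 3 (v (φ 7)) by linarith)
    have b9 := rel2 w2 (hF1 0 9 (by decide +kernel))
      (show 0 = G 10 (v (φ 0)) * F 0 (v (φ 9)) + G 10 (v (φ 3)) * F 3 (v (φ 9)) by linarith)
    rw [b5, b7, b9]
    linear_combination -(G 10 (v (φ 1)) * G 10 (v (φ 1)) * G 10 (v (φ 3)) * G 10 (v (φ 3))) * x2
      - (G 10 (v (φ 3)) * G 10 (v (φ 3))) * y2 - w2
  obtain ⟨r, s, hr, hs, hrs⟩ := r10_signs (fun i j => F i (v (φ j))) hF0 hF1 (hFd 0) (hFd 1)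
    (hFd 2) (hFd 3) (hFd 4) e01 e12 e23 e34 e40 e013
  refine RC.Dec.emb (Set.range v) (Set.range RC.R10) (LinearMap.pi (fun i => r i • F i)) ?_ ?_
    (RC.Dec.r10 _ LinearMap.id (fun y _ h => h) (by
      rintro _ ⟨j, rfl⟩
      exact ⟨j, rfl⟩))
  · intro y hy h0
    by_contra hne
    obtain ⟨f, hf⟩ := RC.Gut.exists_dual hne
    have hker : span ℚ (Set.range v) ≤
        LinearMap.ker (f - ∑ i, f (v (φ (ib i))) • F i) := by
      rw [span_le]
      rintro _ ⟨e, rfl⟩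
      obtain ⟨j, rfl⟩ := hφ e
      rw [SetLike.mem_coe, LinearMap.mem_ker, LinearMap.sub_apply, LinearMap.sum_apply,
        sub_eq_zero, hexp f j]
      exact Finset.sum_congr rfl (fun i _ => rfl)
    have h2 := hker hy
    rw [LinearMap.mem_ker, LinearMap.sub_apply, LinearMap.sum_apply, hf] at h2
    have h3 : ∑ i, (f (v (φ (ib i))) • F i) y = 0 := by
      refine Finset.sum_eq_zero (fun i _ => ?_)
      have h4 := congrFun h0 i
      rw [LinearMap.pi_apply, Pi.zero_apply, LinearMap.smul_apply, smul_eq_mul] at h4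
      have h5 : F i y = 0 := by
        have h6 := hr i
        have : (r i * r i) * F i y = 0 := by rw [mul_assoc, h4, mul_zero]
        rwa [h6, one_mul] at this
      rw [LinearMap.smul_apply, h5, smul_zero]
    rw [h3, sub_zero] at h2
    exact one_ne_zero h2
  · rintro _ ⟨e, rfl⟩
    obtain ⟨j, rfl⟩ := hφ e
    have h1 : (LinearMap.pi (fun i => r i • F i)) (v (φ j)) = s j • RC.R10 j := by
      funext i
      rw [LinearMap.pi_apply, LinearMap.smul_apply, smul_eq_mul, Pi.smul_apply, smul_eq_mul]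
      exact hrs i j
    rw [h1]
    right
    rcases mul_self_eq_one_iff.1 (hs j) with h2 | h2
    · left
      exact ⟨j, by rw [h2, one_smul]⟩
    · right
      exact ⟨j, by rw [h2, neg_one_smul, neg_neg]⟩

end SEY.UB
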