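import Pool.Agent.Helper71.SEYApi2
import Pool.Agent.Helper59.RC.UniBasic

/-!
Block INTER (UB-1).  The binary matroid of a unimodular family of vectors.

`fns v` are the value vectors of linear functionals, `deps v` the linear dependencies,
`bm v` is the binary matroid whose rows are the reductions modulo 2 of the integral vectors in
`fns v`.
-/

set_option autoImplicit false

namespace SEY.UB

open Submodule Module

variable {E V : Type} [Fintype E] [DecidableEq E] [AddCommGroup V] [Module ℚ V]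

omit [Fintype E] [DecidableEq E] in
/-- The value vectors of the linear functionals. -/
def fns (v : E → V) : Submodule ℚ (E → ℚ) where
  carrier := {p | ∃ f : V →ₗ[ℚ] ℚ, ∀ e, p e = f (v e)}
  add_mem' := by
    rintro p q ⟨f, hf⟩ ⟨g, hg⟩
    exact ⟨f + g, fun e => by simp [hf e, hg e]⟩
  zero_mem' := ⟨0, fun e => by simp⟩
  smul_mem' := by
    rintro c p ⟨f, hf⟩
    exact ⟨c • f, fun e => by simp [hf e]⟩

omit [DecidableEq E] in
/-- The linear dependencies. -/
def deps (v : E → V) : Submodule ℚ (E → ℚ) where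
  carrier := {q | ∑ e, q e • v e = 0}
  add_mem' := by
    intro p q hp hq
    simp only [Set.mem_ofPred_eq, Pi.add_apply, add_smul, Finset.sum_add_distrib] at *
    rw [hp, hq, add_zero]
  zero_mem' := by simp
  smul_mem' := by
    intro c p hp
    simp only [Set.mem_ofPred_eq, Pi.smul_apply, smul_eq_mul, mul_smul] at *
    rw [← Finset.smul_sum, hp, smul_zero]

/-- `p` has entries `0, 1, -1` and support `d`. -/
def Sgn (p : E → ℚ) (d : E → ZMod 2) : Prop :=
  ∀ e, (d e = 0 ∧ p e = 0) ∨ (d e = 1 ∧ (p e = 1 ∨ p e = -1))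

/-- The binary matroid of `v`. -/
def bm (v : E → V) : BM E where
  S := Finset.univ
  R :=
    { carrier := {d | ∃ p ∈ fns v, ∃ h : E → ℤ, (∀ e, p e = h e) ∧ ∀ e, d e = (h e : ZMod 2)}
      add_mem' := by
        rintro c d ⟨p, hp, h, h1, h2⟩ ⟨q, hq, k, h3, h4⟩
        exact ⟨p + q, (fns v).add_mem hp hq, h + k, fun e => by simp [h1 e, h3 e],
          fun e => by simp [h2 e, h4 e]⟩
      zero_mem' := ⟨0, (fns v).zero_mem, 0, fun e => by simp, fun e => by simp⟩
      smul_mem' := by
        rintro c d ⟨p, hp, h, h1, h2⟩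
        rcases zcases c with rfl | rfl
        · exact ⟨0, (fns v).zero_mem, 0, fun e => by simp, fun e => by simp⟩
        · exact ⟨p, hp, h, h1, fun e => by simp [h2 e]⟩ }
  supp := fun _ _ e he => absurd (Finset.mem_univ e) he

omit [Fintype E] [DecidableEq E] in
theorem mem_fns {v : E → V} {p : E → ℚ} : p ∈ fns v ↔ ∃ f : V →ₗ[ℚ] ℚ, ∀ e, p e = f (v e) :=
  Iff.rfl

omit [DecidableEq E] in
theorem mem_deps {v : E → V} {q : E → ℚ} : q ∈ deps v ↔ ∑ e, q e • v e = 0 := Iff.rfl

@[simp] theorem bm_S (v : E → V) : (bm v).S = Finset.univ := rfl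

theorem mem_bm {v : E → V} {d : E → ZMod 2} : d ∈ (bm v).R ↔
    ∃ p ∈ fns v, ∃ h : E → ℤ, (∀ e, p e = h e) ∧ ∀ e, d e = (h e : ZMod 2) := Iff.rfl

omit [DecidableEq E] in
/-- Functionals and dependencies are orthogonal. -/
theorem fns_deps {v : E → V} {p q : E → ℚ} (hp : p ∈ fns v) (hq : q ∈ deps v) :
    ∑ e, p e * q e = 0 := by
  obtain ⟨f, hf⟩ := hp
  have h : f (∑ e, q e • v e) = 0 := by rw [mem_deps.1 hq, map_zero]
  rw [map_sum] at h
  rw [← h]
  exact Finset.sum_congr rfl (fun e _ => by rw [map_smul, hf e, smul_eq_mul, mul_comm])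

omit [Fintype E] [DecidableEq E] in
/-- The integral vector with support `d` behind a signed vector. -/
theorem Sgn.int {p : E → ℚ} {d : E → ZMod 2} (h : Sgn p d) :
    ∃ k : E → ℤ, (∀ e, p e = k e) ∧ ∀ e, d e = (k e : ZMod 2) := by
  have key : ∀ e, ∃ k : ℤ, p e = k ∧ d e = (k : ZMod 2) := by
    intro e
    rcases h e with ⟨h1, h2⟩ | ⟨h1, h2 | h2⟩
    · exact ⟨0, by rw [h2]; simp, by rw [h1]; simp⟩
    · exact ⟨1, by rw [h2]; simp, by rw [h1]; simp⟩
    · exact ⟨-1, by rw [h2]; simp, by rw [h1]; decide⟩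
  choose k hk using key
  exact ⟨k, fun e => (hk e).1, fun e => (hk e).2⟩

omit [Fintype E] [DecidableEq E] in
/-- The support of a vector with entries `0, 1, -1`. -/
theorem exists_sgn {p : E → ℚ} (h : ∀ e, p e = 0 ∨ p e = 1 ∨ p e = -1) :
    Sgn p (fun e => if p e = 0 then 0 else 1) := by
  intro e
  rcases h e with h | h | h
  · left; simp [h]
  · right
    refine ⟨?_, Or.inl h⟩
    show (if p e = 0 then (0 : ZMod 2) else 1) = 1
    rw [if_neg (by rw [h]; norm_num)]
  · right
    refine ⟨?_, Or.inr h⟩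
    show (if p e = 0 then (0 : ZMod 2) else 1) = 1
    rw [if_neg (by rw [h]; norm_num)]

/-- The supports of signed functionals are rows. -/
theorem row_of_fn {v : E → V} {p : E → ℚ} (hp : p ∈ fns v) {d : E → ZMod 2} (h : Sgn p d) :
    d ∈ (bm v).R := by
  obtain ⟨k, h1, h2⟩ := h.int
  exact ⟨p, hp, k, h1, h2⟩

/-- The supports of signed dependencies are cycles. -/
theorem cycle_of_dep {v : E → V} {q : E → ℚ} (hq : q ∈ deps v) {d : E → ZMod 2} (h : Sgn q d) :
    d ∈ (bm v).Z := by
  obtain ⟨k, h1, h2⟩ := h.int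
  refine ⟨fun e he => absurd (Finset.mem_univ e) he, ?_⟩
  rintro c ⟨p, hp, m, h3, h4⟩
  have h5 := fns_deps hp hq
  have h6 : (∑ e, m e * k e : ℤ) = 0 := by
    have : ((∑ e, m e * k e : ℤ) : ℚ) = 0 := by
      push_cast
      rw [← h5]
      exact Finset.sum_congr rfl (fun e _ => by rw [h1, h3])
    exact_mod_cast this
  have h7 : ((∑ e, m e * k e : ℤ) : ZMod 2) = 0 := by rw [h6]; simp
  unfold dot
  rw [← h7]
  push_cast
  exact Finset.sum_congr rfl (fun e _ => by rw [h2, h4])

omit [DecidableEq E] in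
/-- Functionals with values `0, 1, -1` separating an element from a set. -/
theorem exists_fn {v : E → V} (hU : RC.Uni (Set.range v)) (A : Set E) (i : E)
    (hi : v i ∉ span ℚ (v '' A)) :
    ∃ p ∈ fns v, (∀ e ∈ A, p e = 0) ∧ p i = 1 ∧ ∀ e, p e = 0 ∨ p e = 1 ∨ p e = -1 := by
  classical
  obtain ⟨T, hTA, -, hT1, hT2⟩ :=
    exists_linearIndepOn_extension (linearIndepOn_empty ℚ v) (Set.empty_subset A)
  have hspan : span ℚ (v '' A) ≤ span ℚ (v '' T) := span_le.2 hT1
  have hiT : v i ∉ span ℚ (v '' T) := fun h => hi (span_mono (Set.image_mono hTA) h)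
  have hins := hT2.insert hiT
  obtain ⟨B, -, hTB, hB1, hB2⟩ := exists_linearIndepOn_extension hins (Set.subset_univ _)
  have hiB : i ∈ B := hTB (Set.mem_insert _ _)
  -- the coordinate functional
  have hli : LinearIndependent ℚ (fun b : B => v b) := hB2
  obtain ⟨f, hf⟩ := LinearMap.exists_extend ((Basis.span hli).constr ℚ
    (fun b : B => if (b : E) = i then (1 : ℚ) else 0))
  have hfb : ∀ b : B, f (v b) = if (b : E) = i then (1 : ℚ) else 0 := by
    intro b
    have h1 := LinearMap.congr_fun hf (Basis.span hli b)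
    rw [Basis.constr_basis] at h1
    rw [← h1, LinearMap.comp_apply, Submodule.subtype_apply, Basis.span_apply]
  have hfT : ∀ y ∈ span ℚ (v '' T), f y = 0 := by
    intro y hy
    have : span ℚ (v '' T) ≤ LinearMap.ker f := by
      rw [span_le]
      rintro _ ⟨t, ht, rfl⟩
      rw [SetLike.mem_coe, LinearMap.mem_ker]
      have h1 := hfb ⟨t, hTB (Set.mem_insert_of_mem _ ht)⟩
      simp only at h1
      rw [h1, if_neg]
      rintro rfl
      exact hiT (subset_span ⟨t, ht, rfl⟩)
    exact this hy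
  refine ⟨fun e => f (v e), ⟨f, fun e => rfl⟩, fun e he => ?_, ?_, fun e => ?_⟩
  · exact hfT _ (hspan (subset_span ⟨e, he, rfl⟩))
  · have h1 := hfb ⟨i, hiB⟩
    simpa using h1
  · have he : v e ∈ span ℚ (v '' B) := hB1 ⟨e, Set.mem_univ _, rfl⟩
    have hBf : B = ((B.toFinset : Finset E) : Set E) := by simp
    rw [hBf, Submodule.mem_span_image_finset_iff_exists_fun] at he
    obtain ⟨c, hc⟩ := he
    let c' : E → ℚ := fun b => if h : b ∈ B.toFinset then c ⟨b, h⟩ else 0
    have hc' : ∑ b ∈ B.toFinset, c' b • v b = v e := by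
      rw [← hc, ← Finset.sum_coe_sort]
      refine Finset.sum_congr rfl (fun b _ => ?_)
      simp only [c']
      rw [dif_pos b.2]
    have h2 := RC.uni_coord hU v B.toFinset (fun b _ => ⟨b, rfl⟩) (by rw [← hBf]; exact hB2) c'
      (by rw [hc']; exact ⟨e, rfl⟩) i (by simpa using hiB)
    have h3 : f (v e) = c' i := by
      rw [← hc', map_sum, Finset.sum_eq_single i]
      · rw [map_smul]
        have h1 : f (v i) = 1 := by
          have h1 := hfb ⟨i, hiB⟩
          simpa using h1
        rw [h1, smul_eq_mul, mul_one]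
      · intro b hb hbi
        rw [map_smul]
        have h1 : f (v b) = 0 := by
          have h1 := hfb ⟨b, by simpa using hb⟩
          simpa [hbi] using h1
        rw [h1, smul_zero]
      · intro h
        exact absurd (by simpa using hiB) h
    show f (v e) = 0 ∨ f (v e) = 1 ∨ f (v e) = -1
    rw [h3]
    exact h2

/-- The same on the level of rows. -/
theorem exists_row {v : E → V} (hU : RC.Uni (Set.range v)) (A : Set E) (i : E)
    (hi : v i ∉ span ℚ (v '' A)) :
    ∃ d ∈ (bm v).R, ∃ p ∈ fns v, Sgn p d ∧ (∀ e ∈ A, d e = 0) ∧ d i = 1 := by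
  obtain ⟨p, hp, hA, h1, h2⟩ := exists_fn hU A i hi
  refine ⟨_, row_of_fn hp (exists_sgn h2), p, hp, exists_sgn h2, fun e he => ?_, ?_⟩
  · simp [hA e he]
  · simp [h1]

/-- A row vanishing on a set vanishes on its closure. -/
theorem row_closure {v : E → V} (hU : RC.Uni (Set.range v)) {d : E → ZMod 2}
    (hd : d ∈ (bm v).R) (A : Set E) (hA : ∀ e ∈ A, d e = 0) {i : E}
    (hi : v i ∈ span ℚ (v '' A)) : d i = 0 := by
  classical
  obtain ⟨p, ⟨f, hf⟩, h, h1, h2⟩ := hd
  obtain ⟨T, hTA, -, hT1, hT2⟩ :=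
    exists_linearIndepOn_extension (linearIndepOn_empty ℚ v) (Set.empty_subset A)
  have he : v i ∈ span ℚ (v '' T) := (span_le.2 hT1) hi
  have hBf : T = ((T.toFinset : Finset E) : Set E) := by simp
  rw [hBf, Submodule.mem_span_image_finset_iff_exists_fun] at he
  obtain ⟨c, hc⟩ := he
  let c' : E → ℚ := fun b => if h : b ∈ T.toFinset then c ⟨b, h⟩ else 0
  have hc' : ∑ b ∈ T.toFinset, c' b • v b = v i := by
    rw [← hc, ← Finset.sum_coe_sort]
    refine Finset.sum_congr rfl (fun b _ => ?_)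
    simp only [c']
    rw [dif_pos b.2]
  have h3 := RC.uni_coord hU v T.toFinset (fun b _ => ⟨b, rfl⟩) (by rw [← hBf]; exact hT2) c'
    (by rw [hc']; exact ⟨i, rfl⟩)
  -- integral coefficients
  have h4 : ∀ b : E, ∃ k : ℤ, b ∈ T.toFinset → c' b = k := by
    intro b
    by_cases hb : b ∈ T.toFinset
    · rcases h3 b hb with h | h | h
      · exact ⟨0, fun _ => by rw [h]; simp⟩
      · exact ⟨1, fun _ => by rw [h]; simp⟩
      · exact ⟨-1, fun _ => by rw [h]; simp⟩
    · exact ⟨0, fun h => absurd h hb⟩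
  choose k hk using h4
  have h5 : (h i : ℤ) = ∑ b ∈ T.toFinset, k b * h b := by
    have : (h i : ℚ) = ((∑ b ∈ T.toFinset, k b * h b : ℤ) : ℚ) := by
      rw [← h1 i, hf i, ← hc', map_sum]
      push_cast
      refine Finset.sum_congr rfl (fun b hb => ?_)
      rw [map_smul, smul_eq_mul, ← hf b, h1 b, hk b hb]
    exact_mod_cast this
  rw [h2 i, h5]
  push_cast
  refine Finset.sum_eq_zero (fun b hb => ?_)
  rw [← h2 b, hA b (hTA (by simpa using hb)), mul_zero]

end SEY.UB
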