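import Pool.Agent.Helper9.UB.Star
import Pool.Agent.Helper9.UB.Vec

/-!
Block INTER (UB-6).  Orienting a 3-connected graph.

`P` is a space of rational vectors such that minimal rows of the cycle matroid `M` of the graph are
signed by vectors of `P` (`h1`) and conversely the supports of signed vectors of `P` are rows
(`h3`), with the right dimension.  Then, for suitable signs `s e`, `P` is the space of the vectors
`s e * (π (h e) - π (t e))`.

Proof.  For `u ∈ U` let `f u ∈ P` sign the star of `u` (`star_isMin`, `h1`); for an edge `e` the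
values `f (h e) e` and `f (t e) e` are `1, -1` and `f u e = 0` for all other `u ∈ U`.  Let
`F = (1/2) • ∑ u ∈ U, f u ∈ P`; `F e = (f (h e) e + f (t e) e) / 2` is `0, 1, -1`.  By `h3` the support
`τ` of `F` (`τ e = 0` iff `f (h e) e = - f (t e) e`) is a row, so `τ = cob M.S h t ε`
(`hg.rows`).  Put `g u = (-1) ^ (ε u) f u` (that is `f u` if `ε u = 0`, else `- f u`); then
`g (h e) e = - g (t e) e` for all `e`.  Put `s e = g (h e) e`.  Then for `π : W → ℚ` the vector
`∑ u ∈ U, π u • g u` has the value `s e * (π (h e) - π (t e))` at `e`.  So all these vectors are in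
`P`.  They form a subspace `G`, the range of a linear map from `W → ℚ` or `U → ℚ`; from `U → ℚ` the kernel
has dimension at most `1`: if `π (h e) = π (t e)` for all `e`, then `π` is constant on `U` (apply `hg.conn`
to the indicator of `{x | π x = π a}`).  So `finrank G + 1 ≥ U.card = M.r M.S + 1`
(`IsGr.card_U`), and `G = P` by `Submodule.eq_of_le_of_finrank_le`.
-/

set_option autoImplicit false

namespace SEY.UB

open Finset Module

variable {E : Type} [Fintype E] [DecidableEq E] {W : Type} [Fintype W] [DecidableEq W]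

theorem orient {M : BM E} (hTC : M.TC) (hS : M.S = univ) {U : Finset W} {h t : E → W}
    (hg : IsGr M U h t) (P : Submodule ℚ (E → ℚ)) (h1 : ∀ d, IsMin M.R d → ∃ p ∈ P, Sgn p d)
    (h3 : ∀ p ∈ P, ∀ d, Sgn p d → d ∈ M.R) (hdim : finrank ℚ P = M.r univ) :
    ∃ s : E → ℚ, (∀ e, s e = 1 ∨ s e = -1) ∧
      ∀ p : E → ℚ, p ∈ P ↔ ∃ π : W → ℚ, ∀ e, p e = s e * (π (h e) - π (t e)) := by
  classical
  have hSne : M.S.Nonempty := by
    rw [← Finset.card_pos]
    have := hTC.1
    omega
  have hmS : ∀ e, e ∈ M.S := fun e => by rw [hS]; exact Finset.mem_univ e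
  have hends := fun e => hg.ends e (hmS e)
  have hf0 : ∀ u, ∃ p : E → ℚ, p ∈ P ∧ (u ∈ U → Sgn p (ind (star M.S h t u))) := by
    intro u
    by_cases hu : u ∈ U
    · obtain ⟨p, hp, hs⟩ := h1 _ (star_isMin hTC hg hu)
      exact ⟨p, hp, fun _ => hs⟩
    · exact ⟨0, P.zero_mem, fun h => absurd h hu⟩
  choose f hfP hfS using hf0
  -- values of `f`
  have hval : ∀ u ∈ U, ∀ e, (h e = u ∨ t e = u) → f u e = 1 ∨ f u e = -1 := by
    intro u hu e he
    have hmem : e ∈ star M.S h t u := by
      rw [star, Finset.mem_filter]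
      exact ⟨hmS e, he⟩
    rcases hfS u hu e with ⟨h1', -⟩ | ⟨-, h2⟩
    · rw [ind, if_pos hmem] at h1'
      exact absurd h1' one_ne_zero
    · exact h2
  have hzero : ∀ u ∈ U, ∀ e, h e ≠ u → t e ≠ u → f u e = 0 := by
    intro u hu e he1 he2
    have hmem : e ∉ star M.S h t u := by
      rw [star, Finset.mem_filter]
      rintro ⟨-, h3 | h3⟩
      · exact he1 h3
      · exact he2 h3
    rcases hfS u hu e with ⟨-, h2⟩ | ⟨h1', -⟩
    · exact h2
    · rw [ind, if_neg hmem] at h1'
      exact absurd h1' zero_ne_one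
  have hsum : ∀ (c : W → ℚ) (e : E),
      ∑ u ∈ U, c u * f u e = c (h e) * f (h e) e + c (t e) * f (t e) e := by
    intro c e
    obtain ⟨h4, h5, h6⟩ := hends e
    refine Finset.sum_eq_add (h e) (t e) h6 ?_ (fun hn => absurd h4 hn) (fun hn => absurd h5 hn)
    rintro u hu ⟨h7, h8⟩
    rw [hzero u hu e (Ne.symm h7) (Ne.symm h8), mul_zero]
  -- the half sum
  let F : E → ℚ := (1 / 2 : ℚ) • ∑ u ∈ U, f u
  have hF : ∀ e, F e = (f (h e) e + f (t e) e) / 2 := by
    intro e
    have h7 := hsum (fun _ => 1) e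
    simp only [one_mul] at h7
    change (1 / 2 : ℚ) * (∑ u ∈ U, f u) e = _
    rw [Finset.sum_apply, h7]
    ring
  have hFP : F ∈ P := P.smul_mem _ (P.sum_mem (fun u _ => hfP u))
  have hh : ∀ e, f (h e) e = 1 ∨ f (h e) e = -1 := fun e => hval _ (hends e).1 e (Or.inl rfl)
  have ht : ∀ e, f (t e) e = 1 ∨ f (t e) e = -1 := fun e => hval _ (hends e).2.1 e (Or.inr rfl)
  have hF3 : ∀ e, F e = 0 ∨ F e = 1 ∨ F e = -1 := by
    intro e
    rw [hF e]
    rcases hh e with h7 | h7 <;> rcases ht e with h8 | h8 <;> rw [h7, h8] <;> norm_num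
  have hτ := h3 F hFP _ (exists_sgn hF3)
  obtain ⟨ε, hε⟩ := (hg.rows _).1 hτ
  have hε' : ∀ e, (if F e = 0 then (0 : ZMod 2) else 1) = ε (h e) + ε (t e) := by
    intro e
    have h7 := congrFun hε e
    rw [cob, if_pos (hmS e)] at h7
    exact h7
  let σ : W → ℚ := fun u => if ε u = 0 then 1 else -1
  have hσ : ∀ u, σ u = 1 ∨ σ u = -1 := by
    intro u
    by_cases h7 : ε u = 0
    · left; simp [σ, h7]
    · right; simp [σ, h7]
  have z2 : ∀ x : ZMod 2, x = 0 ∨ x = 1 := by decide
  have hopp : ∀ e, σ (t e) * f (t e) e = -(σ (h e) * f (h e) e) := by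
    intro e
    have h7 := hε' e
    by_cases h8 : F e = 0
    · rw [if_pos h8] at h7
      have h9 : ε (h e) = ε (t e) := by
        rcases z2 (ε (h e)) with ha | ha <;> rcases z2 (ε (t e)) with hb | hb
        · rw [ha, hb]
        · rw [ha, hb] at h7
          exact absurd h7 (by decide)
        · rw [ha, hb] at h7
          exact absurd h7 (by decide)
        · rw [ha, hb]
      have h10 : σ (h e) = σ (t e) := by simp only [σ, h9]
      rw [hF e] at h8
      have h11 : f (t e) e = - f (h e) e := by linarith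
      rw [← h10, h11]
      ring
    · rw [if_neg h8] at h7
      have h10 : σ (t e) = - σ (h e) := by
        rcases z2 (ε (h e)) with ha | ha <;> rcases z2 (ε (t e)) with hb | hb
        · rw [ha, hb] at h7; simp at h7
        · simp [σ, ha, hb]
        · simp [σ, ha, hb]
        · rw [ha, hb] at h7; exact absurd h7 (by decide)
      have h11 : f (t e) e = f (h e) e := by
        rw [hF e] at h8
        rcases hh e with h12 | h12 <;> rcases ht e with h13 | h13 <;> rw [h12, h13] at h8 ⊢ <;>
          norm_num at h8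
      rw [h10, h11]
      ring
  let s : E → ℚ := fun e => σ (h e) * f (h e) e
  have hs : ∀ e, s e = 1 ∨ s e = -1 := by
    intro e
    change σ (h e) * f (h e) e = 1 ∨ σ (h e) * f (h e) e = -1
    rcases hσ (h e) with h7 | h7 <;> rcases hh e with h8 | h8 <;> rw [h7, h8] <;> norm_num
  have hvec : ∀ (π : W → ℚ), (fun e => s e * (π (h e) - π (t e))) ∈ P := by
    intro π
    have h7 : (fun e => s e * (π (h e) - π (t e))) = ∑ u ∈ U, (π u * σ u) • f u := by
      funext e
      rw [Finset.sum_apply]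
      have h8 := hsum (fun u => π u * σ u) e
      simp only [Pi.smul_apply, smul_eq_mul]
      rw [h8]
      have h9 := hopp e
      change σ (h e) * f (h e) e * (π (h e) - π (t e)) = _
      rw [mul_assoc (π (t e)), h9]
      ring
    rw [h7]
    exact P.sum_mem (fun u _ => P.smul_mem _ (hfP u))
  -- the linear map from the functions on `U`
  let A : (U → ℚ) →ₗ[ℚ] (E → ℚ) :=
    { toFun := fun π e => s e * (π ⟨h e, (hends e).1⟩ - π ⟨t e, (hends e).2.1⟩)
      map_add' := by
        intro π ρ
        funext e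
        simp only [Pi.add_apply]
        ring
      map_smul' := by
        intro c π
        funext e
        simp only [Pi.smul_apply, smul_eq_mul, RingHom.id_apply]
        ring }
  have hA : ∀ π e, A π e = s e * (π ⟨h e, (hends e).1⟩ - π ⟨t e, (hends e).2.1⟩) :=
    fun π e => rfl
  have hAP : LinearMap.range A ≤ P := by
    rintro _ ⟨π, rfl⟩
    have h7 := hvec (fun w => if hw : w ∈ U then π ⟨w, hw⟩ else 0)
    have h8 : A π = (fun e => s e * ((fun w => if hw : w ∈ U then π ⟨w, hw⟩ else 0) (h e) -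
        (fun w => if hw : w ∈ U then π ⟨w, hw⟩ else 0) (t e))) := by
      funext e
      rw [hA]
      simp only [dif_pos (hends e).1, dif_pos (hends e).2.1]
    rw [h8]
    exact h7
  obtain ⟨e0, -⟩ := hSne
  have hker : LinearMap.ker A ≤ Submodule.span ℚ {(fun _ => (1 : ℚ) : U → ℚ)} := by
    intro π hπ
    rw [LinearMap.mem_ker] at hπ
    have h7 : ∀ e, π ⟨h e, (hends e).1⟩ = π ⟨t e, (hends e).2.1⟩ := by
      intro e
      have h8 := congrFun hπ e
      rw [hA, Pi.zero_apply] at h8
      have h9 : s e ≠ 0 := by rcases hs e with h10 | h10 <;> rw [h10] <;> norm_num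
      have h11 := (mul_eq_zero.1 h8).resolve_left h9
      linarith
    let a : U := ⟨h e0, (hends e0).1⟩
    let ρ : W → ZMod 2 := fun w => if ∃ hw : w ∈ U, π ⟨w, hw⟩ = π a then 1 else 0
    have hρ : ∀ (w : W) (hw : w ∈ U), ρ w = if π ⟨w, hw⟩ = π a then 1 else 0 := by
      intro w hw
      simp only [ρ]
      by_cases h8 : π ⟨w, hw⟩ = π a
      · rw [if_pos h8, if_pos ⟨hw, h8⟩]
      · rw [if_neg h8, if_neg (fun h9 => h8 h9.2)]
    have hc : cob M.S h t ρ = 0 := by
      funext e
      rw [cob, if_pos (hmS e), hρ _ (hends e).1, hρ _ (hends e).2.1, h7 e, Pi.zero_apply]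
      split_ifs <;> decide
    have h8 := hg.conn ρ hc
    rw [Submodule.mem_span_singleton]
    refine ⟨π a, ?_⟩
    funext x
    have h9 := h8 x.1 x.2 a.1 a.2
    rw [hρ _ x.2, hρ _ a.2, if_pos rfl] at h9
    simp only [Pi.smul_apply, smul_eq_mul, mul_one]
    by_contra h10
    have h11 : ¬ π ⟨x.1, x.2⟩ = π a := fun h12 => h10 h12.symm
    rw [if_neg h11] at h9
    exact zero_ne_one h9
  have hk1 : finrank ℚ (LinearMap.ker A) ≤ 1 := by
    refine le_trans (Submodule.finrank_mono hker) ?_
    refine le_trans (finrank_span_le_card _) ?_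
    simp
  have hrn := LinearMap.finrank_range_add_finrank_ker A
  rw [Module.finrank_fintype_fun_eq_card, Fintype.card_coe] at hrn
  have hcU := hg.card_U ⟨e0, hmS e0⟩
  rw [hS] at hcU
  have hEq : LinearMap.range A = P := by
    refine Submodule.eq_of_le_of_finrank_le hAP ?_
    rw [hdim]
    omega
  refine ⟨s, hs, fun p => ⟨fun hp => ?_, ?_⟩⟩
  · rw [← hEq] at hp
    obtain ⟨π, rfl⟩ := hp
    refine ⟨fun w => if hw : w ∈ U then π ⟨w, hw⟩ else 0, fun e => ?_⟩
    rw [hA]
    simp only [dif_pos (hends e).1, dif_pos (hends e).2.1]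
  · rintro ⟨π, hπ⟩
    have h7 : p = (fun e => s e * (π (h e) - π (t e))) := funext hπ
    rw [h7]
    exact hvec π

end SEY.UB
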