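import Pool.Agent.Helper9.UB.Min

/-!
Block INTER (UB-4).  Ranks.

`finrank_eq_card`: the restriction `R → (T → K)` is a linear bijection (injective by `h1`,
surjective by `h2`: the element `∑ t, c t • f t`).

`exists_base`: `exists_linearIndepOn_extension (linearIndepOn_empty ..) (empty_subset A)`.

`r_eq`: with a base `T` of `A`, both sides are `T.card`: the left side by `finrank_eq_card` for
`(bm v).R.map (mask A)` (`h1`: `row_closure`; `h2`: `exists_row` for `T.erase t` and `t`, masked),
the right side since `span ℚ (v '' A) = span ℚ (v '' T)` (`finrank_span_eq_card` or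
`linearIndepOn` + `finrank_span_finset_eq_card` for the image; `v` is injective on `T`).

`lam_eq`: `(bm v).lam A = r A + r (univ \ A) - r univ` and
`Submodule.finrank_sup_add_finrank_inf_eq` (the sup is `span ℚ (v '' univ)`).

`finrank_fns`: `finrank_eq_card` over `ℚ` with a base `T` of `univ` (`h1`: a functional vanishing on
`v '' T` vanishes on the span; `h2`: `exists_fn` for `T.erase t` and `t`).
`finrank_deps`: `deps v` is the kernel of the linear map `c ↦ ∑ e, c e • v e` with range
`span ℚ (Set.range v)`, so `finrank (deps v) + finrank (span ..) = card E`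
(`LinearMap.finrank_range_add_finrank_ker`, `Fintype.range_linearCombination`); on the binary side
`rk + nul = card` (see `SEYApi`, e.g. `rk_add_nul` or the like; `(bm v).dual.r univ` is the rank of the dual,
the nullity of `bm v`).
-/

set_option autoImplicit false

namespace SEY.UB

open Submodule Module

variable {E V : Type} [Fintype E] [DecidableEq E] [AddCommGroup V] [Module ℚ V]

omit [DecidableEq E] in
theorem finrank_eq_card {K : Type} [Field K] (R : Submodule K (E → K)) (T : Finset E)
    (h1 : ∀ f ∈ R, (∀ t ∈ T, f t = 0) → f = 0)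
    (h2 : ∀ t ∈ T, ∃ f ∈ R, f t = 1 ∧ ∀ s ∈ T, s ≠ t → f s = 0) : finrank K R = T.card := by
  classical
  let L : R →ₗ[K] (T → K) :=
    { toFun := fun f t => f.1 t.1
      map_add' := fun _ _ => rfl
      map_smul' := fun _ _ => rfl }
  have hinj : Function.Injective L := by
    rw [← LinearMap.ker_eq_bot, LinearMap.ker_eq_bot']
    intro f hf
    apply Subtype.ext
    exact h1 f.1 f.2 (fun t ht => congrFun hf ⟨t, ht⟩)
  have hsurj : Function.Surjective L := by
    intro c
    choose! g hg h1g h0g using h2
    refine ⟨⟨∑ t : T, c t • g t.1, Submodule.sum_mem _ (fun t _ => R.smul_mem _ (hg t.1 t.2))⟩, ?_⟩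
    funext s
    show (∑ t : T, c t • g t.1) s.1 = c s
    rw [Finset.sum_apply, Finset.sum_eq_single s]
    · rw [Pi.smul_apply, h1g s.1 s.2, smul_eq_mul, mul_one]
    · intro t _ hts
      rw [Pi.smul_apply, h0g t.1 t.2 s.1 s.2 (fun h => hts (Subtype.ext h.symm)), smul_zero]
    · intro h
      exact absurd (Finset.mem_univ _) h
  rw [(LinearEquiv.ofBijective L ⟨hinj, hsurj⟩).finrank_eq]
  simp

omit [DecidableEq E] in
theorem exists_base (v : E → V) (A : Finset E) : ∃ T ⊆ A, LinearIndepOn ℚ v (T : Set E) ∧
    ∀ i ∈ A, v i ∈ span ℚ (v '' (T : Set E)) := by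
  classical
  obtain ⟨T, hTA, -, hT1, hT2⟩ :=
    exists_linearIndepOn_extension (linearIndepOn_empty ℚ v) (Set.empty_subset (A : Set E))
  refine ⟨T.toFinset, ?_, ?_, ?_⟩
  · intro x hx
    exact hTA (by simpa using hx)
  · rw [Set.coe_toFinset]; exact hT2
  · intro i hi
    rw [Set.coe_toFinset]
    exact hT1 ⟨i, hi, rfl⟩

omit [Fintype E] in
/-- An element of an independent set is not spanned by the others. -/
theorem notMem_span_erase {v : E → V} {T : Finset E} (hT : LinearIndepOn ℚ v (T : Set E)) {t : E}
    (ht : t ∈ T) : v t ∉ span ℚ (v '' ((T.erase t : Finset E) : Set E)) := by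
  have h4 := (linearIndepOn_insert (K := ℚ) (f := v) (s := ((T.erase t : Finset E) : Set E))
    (a := t) (by simp)).1 (by
      rw [← Finset.coe_insert, Finset.insert_erase ht]; exact hT)
  exact h4.2

omit [Fintype E] [DecidableEq E] in
theorem finrank_of_base {v : E → V} {A T : Finset E} (hTA : T ⊆ A)
    (hT : LinearIndepOn ℚ v (T : Set E)) (hs : ∀ i ∈ A, v i ∈ span ℚ (v '' (T : Set E))) :
    finrank ℚ (span ℚ (v '' (A : Set E))) = T.card := by
  have h1 : span ℚ (v '' (A : Set E)) = span ℚ (v '' (T : Set E)) := by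
    apply le_antisymm
    · rw [span_le]
      rintro _ ⟨i, hi, rfl⟩
      exact hs i hi
    · exact span_mono (Set.image_mono (by exact_mod_cast hTA))
  rw [h1]
  have h2 : LinearIndependent ℚ (fun t : (T : Set E) => v t) := hT
  have h3 := finrank_span_eq_card h2
  have h5 : Fintype.card (T : Set E) = T.card := by simp
  rw [h5, ← Set.image_eq_range] at h3
  exact h3

theorem r_eq {v : E → V} (hU : RC.Uni (Set.range v)) (A : Finset E) :
    (bm v).r A = finrank ℚ (span ℚ (v '' (A : Set E))) := by
  obtain ⟨T, hTA, hT, hs⟩ := exists_base v A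
  rw [finrank_of_base hTA hT hs]
  refine finrank_eq_card _ T ?_ ?_
  · rintro _ ⟨g, hg, rfl⟩ h0
    rw [mask_eq_zero_iff]
    intro e he
    refine row_closure hU hg (T : Set E) (fun t ht => ?_) (hs e he)
    have := h0 t ht
    rwa [mask_apply, if_pos (hTA ht)] at this
  · intro t ht
    obtain ⟨d, hd, -, -, -, hA, h4⟩ := exists_row hU _ t (notMem_span_erase hT ht)
    refine ⟨mask A d, ⟨d, hd, rfl⟩, ?_, fun s hs' hst => ?_⟩
    · rw [mask_apply, if_pos (hTA ht), h4]
    · rw [mask_apply, if_pos (hTA hs')]
      exact hA s (by simp [hst, hs'])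

theorem lam_eq {v : E → V} (hU : RC.Uni (Set.range v)) (A : Finset E) :
    (bm v).lam A = finrank ℚ (span ℚ (v '' (A : Set E)) ⊓
      span ℚ (v '' ((Finset.univ \ A : Finset E) : Set E)) : Submodule ℚ V) := by
  unfold BM.lam
  rw [bm_S, r_eq hU, r_eq hU, r_eq hU]
  have f1 : FiniteDimensional ℚ (span ℚ (v '' (A : Set E))) :=
    FiniteDimensional.span_of_finite ℚ (Set.toFinite _)
  have f2 : FiniteDimensional ℚ (span ℚ (v '' ((Finset.univ \ A : Finset E) : Set E))) :=
    FiniteDimensional.span_of_finite ℚ (Set.toFinite _)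
  have h := Submodule.finrank_sup_add_finrank_inf_eq (span ℚ (v '' (A : Set E)))
    (span ℚ (v '' ((Finset.univ \ A : Finset E) : Set E)))
  rw [← span_union, ← Set.image_union, ← Finset.coe_union,
    Finset.union_sdiff_of_subset (Finset.subset_univ A)] at h
  omega

theorem finrank_fns {v : E → V} (hU : RC.Uni (Set.range v)) :
    finrank ℚ (fns v) = (bm v).r Finset.univ := by
  obtain ⟨T, hTA, hT, hs⟩ := exists_base v Finset.univ
  rw [r_eq hU, finrank_of_base hTA hT hs]
  refine finrank_eq_card _ T ?_ ?_
  · rintro p ⟨f, hf⟩ h0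
    have hle : span ℚ (v '' (T : Set E)) ≤ LinearMap.ker f := by
      rw [span_le]
      rintro _ ⟨t, ht, rfl⟩
      rw [SetLike.mem_coe, LinearMap.mem_ker, ← hf]
      exact h0 t ht
    funext e
    rw [hf e]
    exact hle (hs e (Finset.mem_univ e))
  · intro t ht
    obtain ⟨p, hp, hA, h1, -⟩ := exists_fn hU _ t (notMem_span_erase hT ht)
    exact ⟨p, hp, h1, fun s hs' hst => hA s (by simp [hst, hs'])⟩

theorem finrank_deps {v : E → V} (hU : RC.Uni (Set.range v)) :
    finrank ℚ (deps v) = (bm v).dual.r Finset.univ := by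
  have h1 := (bm v).dual_r_add_rk (A := Finset.univ) (Finset.Subset.refl _)
  have h2 : (bm v).r ((bm v).S \ Finset.univ) = 0 := by
    rw [bm_S, Finset.sdiff_self, BM.r_empty]
  rw [h2, add_zero, ← BM.r_S, bm_S, r_eq hU] at h1
  have h3 := LinearMap.finrank_range_add_finrank_ker (Fintype.linearCombination ℚ v)
  rw [Fintype.range_linearCombination] at h3
  have h4 : LinearMap.ker (Fintype.linearCombination ℚ v) = deps v := by
    ext q
    rw [LinearMap.mem_ker, Fintype.linearCombination_apply, mem_deps]
  rw [h4] at h3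
  have h5 : finrank ℚ (E → ℚ) = Fintype.card E := by simp
  rw [h5] at h3
  rw [Finset.coe_univ, Set.image_univ] at h1
  rw [Finset.card_univ] at h1
  omega

end SEY.UB
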