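import Pool.Agent.Helper9.UB.Vec

/-!
Block INTER (UB-2).  Minimal rows and minimal cycles of `bm v` are signed by functionals and
dependencies; the same for minors.
-/

set_option autoImplicit false

namespace SEY.UB

open Submodule Module

variable {E V : Type} [Fintype E] [DecidableEq E] [AddCommGroup V] [Module ℚ V]

/-- Minimal rows are signed by functionals. -/
theorem isMin_row {v : E → V} (hU : RC.Uni (Set.range v)) {d : E → ZMod 2}
    (hd : IsMin (bm v).R d) : ∃ p ∈ fns v, Sgn p d := by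
  obtain ⟨h1, h2, h3⟩ := hd
  obtain ⟨i, hi⟩ : ∃ i, d i ≠ 0 := by
    by_contra hcon
    push Not at hcon
    exact h2 (funext hcon)
  have hcl : v i ∉ span ℚ (v '' {e | d e = 0}) :=
    fun h => hi (row_closure hU h1 {e | d e = 0} (fun e he => he) h)
  obtain ⟨d', hd', p, hp, hs, hA, h4⟩ := exists_row hU {e | d e = 0} i hcl
  have h5 : d' = d := by
    refine h3 d' hd' ?_ ?_
    · rintro rfl
      simp at h4
    · intro e he
      rw [mem_spt] at he ⊢
      intro h
      exact he (hA e h)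
  rw [← h5]
  exact ⟨p, hp, hs⟩

/-- A signed dependency gives a cycle. -/
theorem exists_cycle_of_dep {v : E → V} (hU : RC.Uni (Set.range v)) (T : Finset E)
    (hT : ¬ LinearIndepOn ℚ v (T : Set E)) :
    ∃ q ∈ deps v, ∃ z, Sgn q z ∧ z ≠ 0 ∧ spt z ⊆ T := by
  -- a minimal dependent subset
  have key : ∀ n : ℕ, ∀ T : Finset E, T.card = n → ¬ LinearIndepOn ℚ v (T : Set E) →
      ∃ S ⊆ T, ¬ LinearIndepOn ℚ v (S : Set E) ∧
        ∀ i ∈ S, LinearIndepOn ℚ v ((S.erase i : Finset E) : Set E) := by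
    intro n
    induction n with
    | zero =>
      intro T hT h
      rw [Finset.card_eq_zero] at hT
      subst hT
      exact absurd (by simp) h
    | succ n ih =>
      intro T hT h
      by_cases hmin : ∀ i ∈ T, LinearIndepOn ℚ v ((T.erase i : Finset E) : Set E)
      · exact ⟨T, Finset.Subset.refl _, h, hmin⟩
      · push Not at hmin
        obtain ⟨i, hi, hi2⟩ := hmin
        obtain ⟨S, hS, hS2, hS3⟩ := ih (T.erase i) (by rw [Finset.card_erase_of_mem hi, hT]; rfl) hi2
        exact ⟨S, hS.trans (Finset.erase_subset _ _), hS2, hS3⟩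
  obtain ⟨S, hST, hS, hmin⟩ := key T.card T rfl hT
  rw [linearIndepOn_finset_iff] at hS
  push Not at hS
  obtain ⟨c, hc0, i0, hi0, hci0⟩ := hS
  have hcirc := RC.uni_circ hU v S (fun i _ => ⟨i, rfl⟩) hmin c hc0 ⟨i0, hi0, hci0⟩
  let q : E → ℚ := fun e => if e ∈ S then c e / c i0 else 0
  have hq : ∀ e, q e = 0 ∨ q e = 1 ∨ q e = -1 := by
    intro e
    by_cases he : e ∈ S
    · have h1 : q e = c e / c i0 := if_pos he
      rw [h1]
      rcases (hcirc e he).2 i0 hi0 with h | h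
      · right; left; rw [h, div_self hci0]
      · right; right; rw [h, neg_div, div_self hci0]
    · left; exact if_neg he
  refine ⟨q, ?_, _, exists_sgn hq, ?_, ?_⟩
  · rw [mem_deps]
    have h1 : ∑ e, q e • v e = ∑ e ∈ S, (c e / c i0) • v e := by
      rw [← Finset.sum_subset (Finset.subset_univ S) (fun e _ he => by
        simp only [q]; rw [if_neg he, zero_smul])]
      exact Finset.sum_congr rfl (fun e he => by simp only [q]; rw [if_pos he])
    rw [h1]
    have h2 : ∑ e ∈ S, (c e / c i0) • v e = (c i0)⁻¹ • ∑ e ∈ S, c e • v e := by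
      rw [Finset.smul_sum]
      exact Finset.sum_congr rfl (fun e _ => by rw [smul_smul, div_eq_inv_mul])
    rw [h2, hc0, smul_zero]
  · intro h
    have h1 := congrFun h i0
    have h2 : q i0 = 1 := by simp only [q]; rw [if_pos hi0, div_self hci0]
    simp only [Pi.zero_apply] at h1
    rw [if_neg (by rw [h2]; norm_num)] at h1
    exact one_ne_zero h1
  · refine Finset.Subset.trans ?_ hST
    intro e he
    by_contra heS
    rw [mem_spt] at he
    apply he
    have : q e = 0 := if_neg heS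
    simp [this]

/-- Minimal cycles are signed by dependencies. -/
theorem isMin_cycle {v : E → V} (hU : RC.Uni (Set.range v)) {z : E → ZMod 2}
    (hz : IsMin (bm v).Z z) : ∃ q ∈ deps v, Sgn q z := by
  obtain ⟨h1, h2, h3⟩ := hz
  have hdep : ¬ LinearIndepOn ℚ v ((spt z : Finset E) : Set E) := by
    intro hli
    obtain ⟨i, hi⟩ : ∃ i, z i ≠ 0 := by
      by_contra hcon
      push Not at hcon
      exact h2 (funext hcon)
    have his : i ∈ spt z := mem_spt.2 hi
    have hcl : v i ∉ span ℚ (v '' (((spt z).erase i : Finset E) : Set E)) := by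
      have h4 := (linearIndepOn_insert (K := ℚ) (f := v) (s := (((spt z).erase i : Finset E) : Set E))
        (a := i) (by simp)).1 (by
          rw [← Finset.coe_insert, Finset.insert_erase his]; exact hli)
      exact h4.2
    obtain ⟨d, hd, -, -, -, hA, h4⟩ := exists_row hU _ i hcl
    have h5 := (bm v).dot_eq_zero hd h1
    rw [dot_eq_sum_right (A := spt z) (fun e he => notMem_spt.1 he),
      ← Finset.add_sum_erase _ _ his] at h5
    rw [Finset.sum_eq_zero (fun e he => by rw [hA e he, zero_mul]), add_zero, h4, one_mul] at h5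
    exact hi h5
  obtain ⟨q, hq, z', hs, hz0, hz1⟩ := exists_cycle_of_dep hU _ hdep
  have h5 : z' = z := h3 z' (cycle_of_dep hq hs) hz0 hz1
  rw [← h5]
  exact ⟨q, hq, hs⟩

/-- The minor of `bm v` on the elements `φ j` obtained by contracting `C` is the matroid on
`Fin k` spanned by `rows`. -/
structure Mn (v : E → V) {r k : ℕ} (rows : Fin r → Fin k → ZMod 2) (φ : Fin k → E)
    (C : Finset E) : Prop where
  lift : ∀ i, ∃ f ∈ (bm v).R, (∀ c ∈ C, f c = 0) ∧ ∀ j, f (φ j) = rows i j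
  comb : ∀ f ∈ (bm v).R, (∀ c ∈ C, f c = 0) →
    ∃ c : Fin r → ZMod 2, ∀ j, f (φ j) = ∑ i, c i * rows i j

theorem mn_of_hasMinor {v : E → V} {r k : ℕ} {rows : Fin r → Fin k → ZMod 2}
    (h : HasMinor rows (bm v)) : ∃ (φ : Fin k → E) (C : Finset E), Mn v rows φ C := by
  obtain ⟨φ, C, -, -, -, -, h1, h2⟩ := h
  exact ⟨φ, C, h1, h2⟩

theorem mn_of_isIso {v : E → V} {r k : ℕ} {rows : Fin r → Fin k → ZMod 2}
    (h : IsIso rows (bm v)) : ∃ φ : Fin k → E, (∀ e, ∃ i, φ i = e) ∧ Mn v rows φ ∅ := by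
  obtain ⟨φ, -, h0, h1, h2⟩ := h
  refine ⟨φ, fun e => (h0 e).1 (Finset.mem_univ e), fun i => ?_, fun f hf _ => h2 f hf⟩
  obtain ⟨f, hf, h3⟩ := h1 i
  exact ⟨f, hf, by simp, h3⟩

/-- Minimal combinations of the rows are signed by functionals. -/
theorem Mn.sgn {v : E → V} (hU : RC.Uni (Set.range v)) {r k : ℕ}
    {rows : Fin r → Fin k → ZMod 2} {φ : Fin k → E} {C : Finset E} (h : Mn v rows φ C)
    (c : Fin r → ZMod 2) (hne : ∃ j, ∑ i, c i * rows i j ≠ 0)
    (hmin : ∀ c' : Fin r → ZMod 2, (∃ j, ∑ i, c' i * rows i j ≠ 0) →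
      (∀ j, ∑ i, c i * rows i j = 0 → ∑ i, c' i * rows i j = 0) →
        ∀ j, ∑ i, c' i * rows i j = ∑ i, c i * rows i j) :
    ∃ p ∈ fns v, (∀ e ∈ C, p e = 0) ∧
      ∀ j, (∑ i, c i * rows i j = 0 ∧ p (φ j) = 0) ∨
        (∑ i, c i * rows i j = 1 ∧ (p (φ j) = 1 ∨ p (φ j) = -1)) := by
  obtain ⟨j0, hj0⟩ := hne
  choose f hf hfC hfφ using h.lift
  let d0 : E → ZMod 2 := ∑ i, c i • f i
  have hd0 : d0 ∈ (bm v).R := Submodule.sum_mem _ (fun i _ => (bm v).R.smul_mem _ (hf i))
  have hd0C : ∀ e ∈ C, d0 e = 0 := by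
    intro e he
    simp only [d0, Finset.sum_apply, Pi.smul_apply, smul_eq_mul]
    exact Finset.sum_eq_zero (fun i _ => by rw [hfC i e he, mul_zero])
  have hd0φ : ∀ j, d0 (φ j) = ∑ i, c i * rows i j := by
    intro j
    simp only [d0, Finset.sum_apply, Pi.smul_apply, smul_eq_mul]
    exact Finset.sum_congr rfl (fun i _ => by rw [hfφ])
  have hcl : v (φ j0) ∉ span ℚ (v '' {e | d0 e = 0}) := fun h1 =>
    hj0 (by rw [← hd0φ]; exact row_closure hU hd0 {e | d0 e = 0} (fun e he => he) h1)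
  obtain ⟨d, hd, p, hp, hs, hA, h4⟩ := exists_row hU {e | d0 e = 0} (φ j0) hcl
  obtain ⟨c', hc'⟩ := h.comb d hd (fun e he => hA e (hd0C e he))
  have h5 := hmin c' ⟨j0, by rw [← hc', h4]; exact one_ne_zero⟩ (fun j hj => by
    rw [← hc']; exact hA (φ j) (by rw [← hd0φ] at hj; exact hj))
  refine ⟨p, hp, fun e he => ?_, fun j => ?_⟩
  · rcases hs e with h6 | h6
    · exact h6.2
    · exfalso
      have := hA e (hd0C e he)
      rw [this] at h6
      exact zero_ne_one h6.1
  · rw [← h5 j, ← hc' j]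
    exact hs (φ j)

/-- A functional vanishing on `C` and on a spanning set vanishes. -/
theorem Mn.vanish {v : E → V} (hU : RC.Uni (Set.range v)) {r k : ℕ}
    {rows : Fin r → Fin k → ZMod 2} {φ : Fin k → E} {C : Finset E} (h : Mn v rows φ C)
    (B : Finset (Fin k)) (hB : ∀ c : Fin r → ZMod 2, (∀ b ∈ B, ∑ i, c i * rows i b = 0) →
      ∀ j, ∑ i, c i * rows i j = 0)
    {p : E → ℚ} (hp : p ∈ fns v) (hC : ∀ e ∈ C, p e = 0) (hpB : ∀ b ∈ B, p (φ b) = 0) :
    ∀ j, p (φ j) = 0 := by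
  intro j
  obtain ⟨f, hf⟩ := hp
  have hcl : v (φ j) ∈ span ℚ (v '' ((C : Set E) ∪ φ '' (B : Set (Fin k)))) := by
    by_contra hcon
    obtain ⟨d, hd, -, -, -, hA, h4⟩ := exists_row hU _ (φ j) hcon
    obtain ⟨c, hc⟩ := h.comb d hd (fun e he => hA e (Or.inl he))
    have h5 := hB c (fun b hb => by
      rw [← hc]; exact hA (φ b) (Or.inr ⟨b, hb, rfl⟩)) j
    rw [← hc, h4] at h5
    exact one_ne_zero h5
  rw [hf]
  have hle : span ℚ (v '' ((C : Set E) ∪ φ '' (B : Set (Fin k)))) ≤ LinearMap.ker f := by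
    rw [span_le]
    rintro _ ⟨e, he | ⟨b, hb, rfl⟩, rfl⟩
    · rw [SetLike.mem_coe, LinearMap.mem_ker, ← hf]
      exact hC e he
    · rw [SetLike.mem_coe, LinearMap.mem_ker, ← hf]
      exact hpB b hb
  exact hle hcl

end SEY.UB
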