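import Pool.Agent.Helper9.UB.Min

/-!
Block INTER (UB-3).  `bm v` has no Fano and no dual Fano minor.

Let `h : HasMinor F7 (bm v)`; `mn_of_hasMinor` gives `φ`, `C` and `Mn v F7 φ C`.  `Mn.sgn` (the
side conditions are closed by `decide` after giving the explicit coefficients `c`) gives
functionals `p` vanishing on `C` whose values at `φ 0, ..., φ 6` are `0, 1, -1` with support a given
nonzero row combination: `f0, f1, f2` for the three rows (supports 0346, 1356, 2456) and `g01`,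
`g02`, `g12`, `g012` for their sums (supports 0145, 0235, 1234, 0126).
By `Mn.vanish` with `B = {0, 1, 2}` every `p` in `fns v` vanishing on `C` with
`p (φ b) = 0` for `b = 0, 1, 2` vanishes at all `φ j`; apply it to
`g - (g 0 / f0 0) • f0 - (g 1 / f1 1) • f1 - (g 2 / f2 2) • f2`.  So for all `j`
`g j = x * f0 j + y * f1 j + z * f2 j` with `x = g 0 / f0 0` and so on.  With all values `1, -1`
on the supports (write `a j = f0 j`, `b j = f1 j`, `c j = f2 j`):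
`g01` at 3, 6: `x a3 + y b3 = 0`, `x a6 + y b6 = 0`, so `a3 b3 = a6 b6`;
`g02` at 4, 6: `a4 c4 = a6 c6`;  `g12` at 5, 6: `b5 c5 = b6 c6`;
so the product of `a3 b3`, `a4 c4`, `b5 c5` is `1`.
`g012` at 3, 4, 5: `a3 b3 = - x y`, `a4 c4 = - x z`, `b5 c5 = - y z`, product `-1`.  Contradiction.

For `F7s` (rows `f0 = 013`, `f1 = 024`, `f2 = 125`, `f3 = 0126`; basis `B = {3, 4, 5, 6}`): the
minimal combinations are `0 + 3` (236), `1 + 3` (146), `2 + 3` (056), `0 + 1 + 2` (345), and the rows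
themselves.  With `a j = f0 j`, `b j = f1 j`, `c j = f2 j`, `d j = f3 j`:
`0 + 3` at 0, 1: `a0 d0 = a1 d1`;  `1 + 3` at 0, 2: `b0 d0 = b2 d2`;  `2 + 3` at 1, 2: `c1 d1 = c2 d2`;
product: `a0 a1 b0 b2 c1 c2 = 1`.
`0 + 1 + 2` at 0, 1, 2: `a0 b0 = - x y`, `a1 c1 = - x z`, `b2 c2 = - y z`, product `-1`.
-/

set_option autoImplicit false

namespace SEY.UB

open Submodule Module

variable {E V : Type} [Fintype E] [DecidableEq E] [AddCommGroup V] [Module ℚ V]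

/-- A functional vanishing on `C` with values `0, 1, -1` and support `s` on the `φ j`. -/
def Sv (v : E → V) {k : ℕ} (φ : Fin k → E) (C : Finset E) (s : Fin k → ZMod 2)
    (p : E → ℚ) : Prop :=
  p ∈ fns v ∧ (∀ e ∈ C, p e = 0) ∧
    ∀ j, (s j = 0 ∧ p (φ j) = 0) ∨ (s j = 1 ∧ p (φ j) * p (φ j) = 1)

omit [Fintype E] [DecidableEq E] in
theorem Sv.zero {v : E → V} {k : ℕ} {φ : Fin k → E} {C : Finset E} {s : Fin k → ZMod 2}
    {p : E → ℚ} (h : Sv v φ C s p) (j : Fin k) (hj : s j = 0) : p (φ j) = 0 := by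
  rcases h.2.2 j with h1 | h1
  · exact h1.2
  · rw [hj] at h1
    exact absurd h1.1 (by decide)

omit [Fintype E] [DecidableEq E] in
theorem Sv.one {v : E → V} {k : ℕ} {φ : Fin k → E} {C : Finset E} {s : Fin k → ZMod 2}
    {p : E → ℚ} (h : Sv v φ C s p) (j : Fin k) (hj : s j = 1) : p (φ j) * p (φ j) = 1 := by
  rcases h.2.2 j with h1 | h1
  · rw [hj] at h1
    exact absurd h1.1 (by decide)
  · exact h1.2

theorem Mn.sv {v : E → V} (hU : RC.Uni (Set.range v)) {r k : ℕ}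
    {rows : Fin r → Fin k → ZMod 2} {φ : Fin k → E} {C : Finset E} (h : Mn v rows φ C)
    (c : Fin r → ZMod 2) (s : Fin k → ZMod 2) (hs : ∀ j, ∑ i, c i * rows i j = s j)
    (hne : ∃ j, s j ≠ 0)
    (hmin : ∀ c' : Fin r → ZMod 2, (∃ j, ∑ i, c' i * rows i j ≠ 0) →
      (∀ j, s j = 0 → ∑ i, c' i * rows i j = 0) →
        ∀ j, ∑ i, c' i * rows i j = s j) : ∃ p, Sv v φ C s p := by
  obtain ⟨p, hp, hC, h1⟩ := h.sgn hU c (by simpa only [hs] using hne)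
    (by simpa only [hs] using hmin)
  refine ⟨p, hp, hC, fun j => ?_⟩
  rw [← hs j]
  rcases h1 j with h2 | ⟨h2, h3 | h3⟩
  · exact Or.inl h2
  · exact Or.inr ⟨h2, by rw [h3]; norm_num⟩
  · exact Or.inr ⟨h2, by rw [h3]; norm_num⟩

theorem sq_prod {x y a b : ℚ} (hx : x * x = 1) (hb : b * b = 1) (h : x * a + y * b = 0) :
    a * b = -(x * y) := by
  linear_combination (x * b) * h - (a * b) * hx - (x * y) * hb

theorem sq_mul {x a : ℚ} (hx : x * x = 1) (ha : a * a = 1) : (x * a) * (x * a) = 1 := by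
  linear_combination (a * a) * hx + ha

theorem noF7 {v : E → V} (hU : RC.Uni (Set.range v)) : ¬ HasMinor F7 (bm v) := by
  intro hcon
  obtain ⟨φ, C, h⟩ := mn_of_hasMinor hcon
  obtain ⟨f0, h0⟩ := h.sv hU ![1, 0, 0] ![1, 0, 0, 1, 1, 0, 1] (by decide) (by decide) (by decide)
  obtain ⟨f1, h1⟩ := h.sv hU ![0, 1, 0] ![0, 1, 0, 1, 0, 1, 1] (by decide) (by decide) (by decide)
  obtain ⟨f2, h2⟩ := h.sv hU ![0, 0, 1] ![0, 0, 1, 0, 1, 1, 1] (by decide) (by decide) (by decide)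
  have comb : ∀ g ∈ fns v, (∀ e ∈ C, g e = 0) → ∀ j, g (φ j) =
      (g (φ 0) * f0 (φ 0)) * f0 (φ j) + (g (φ 1) * f1 (φ 1)) * f1 (φ j) +
        (g (φ 2) * f2 (φ 2)) * f2 (φ j) := by
    intro g hg hgC j
    have hmem : g - ((g (φ 0) * f0 (φ 0)) • f0 + (g (φ 1) * f1 (φ 1)) • f1 +
        (g (φ 2) * f2 (φ 2)) • f2) ∈ fns v :=
      (fns v).sub_mem hg ((fns v).add_mem ((fns v).add_mem ((fns v).smul_mem _ h0.1)
        ((fns v).smul_mem _ h1.1)) ((fns v).smul_mem _ h2.1))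
    have hv := h.vanish hU {0, 1, 2} (by decide) hmem (fun e he => by
      simp [hgC e he, h0.2.1 e he, h1.2.1 e he, h2.2.1 e he]) (fun b hb => by
      have e00 := h0.one 0 rfl
      have e01 := h0.zero 1 rfl
      have e02 := h0.zero 2 rfl
      have e10 := h1.zero 0 rfl
      have e11 := h1.one 1 rfl
      have e12 := h1.zero 2 rfl
      have e20 := h2.zero 0 rfl
      have e21 := h2.zero 1 rfl
      have e22 := h2.one 2 rfl
      simp only [Finset.mem_insert, Finset.mem_singleton] at hb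
      rcases hb with rfl | rfl | rfl
      · simp only [Pi.sub_apply, Pi.add_apply, Pi.smul_apply, smul_eq_mul, e10, e20]
        linear_combination (-g (φ 0)) * e00
      · simp only [Pi.sub_apply, Pi.add_apply, Pi.smul_apply, smul_eq_mul, e01, e21]
        linear_combination (-g (φ 1)) * e11
      · simp only [Pi.sub_apply, Pi.add_apply, Pi.smul_apply, smul_eq_mul, e02, e12]
        linear_combination (-g (φ 2)) * e22) j
    simp only [Pi.sub_apply, Pi.add_apply, Pi.smul_apply, smul_eq_mul] at hv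
    linear_combination hv
  -- `0 + 1`
  have k01 : f0 (φ 3) * f1 (φ 3) = f0 (φ 6) * f1 (φ 6) := by
    obtain ⟨g, hg⟩ := h.sv hU ![1, 1, 0] ![1, 1, 0, 0, 1, 1, 0] (by decide) (by decide) (by decide)
    have c3 := comb g hg.1 hg.2.1 3
    have c6 := comb g hg.1 hg.2.1 6
    rw [hg.zero 3 rfl, hg.zero 2 rfl] at c3
    rw [hg.zero 6 rfl, hg.zero 2 rfl] at c6
    have hx := sq_mul (hg.one 0 rfl) (h0.one 0 rfl)
    rw [sq_prod hx (h1.one 3 rfl) (y := g (φ 1) * f1 (φ 1)) (by linear_combination -c3),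
      sq_prod hx (h1.one 6 rfl) (y := g (φ 1) * f1 (φ 1)) (by linear_combination -c6)]
  have k02 : f0 (φ 4) * f2 (φ 4) = f0 (φ 6) * f2 (φ 6) := by
    obtain ⟨g, hg⟩ := h.sv hU ![1, 0, 1] ![1, 0, 1, 1, 0, 1, 0] (by decide) (by decide) (by decide)
    have c3 := comb g hg.1 hg.2.1 4
    have c6 := comb g hg.1 hg.2.1 6
    rw [hg.zero 4 rfl, hg.zero 1 rfl] at c3
    rw [hg.zero 6 rfl, hg.zero 1 rfl] at c6
    have hx := sq_mul (hg.one 0 rfl) (h0.one 0 rfl)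
    rw [sq_prod hx (h2.one 4 rfl) (y := g (φ 2) * f2 (φ 2)) (by linear_combination -c3),
      sq_prod hx (h2.one 6 rfl) (y := g (φ 2) * f2 (φ 2)) (by linear_combination -c6)]
  have k12 : f1 (φ 5) * f2 (φ 5) = f1 (φ 6) * f2 (φ 6) := by
    obtain ⟨g, hg⟩ := h.sv hU ![0, 1, 1] ![0, 1, 1, 1, 1, 0, 0] (by decide) (by decide) (by decide)
    have c3 := comb g hg.1 hg.2.1 5
    have c6 := comb g hg.1 hg.2.1 6
    rw [hg.zero 5 rfl, hg.zero 0 rfl] at c3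
    rw [hg.zero 6 rfl, hg.zero 0 rfl] at c6
    have hx := sq_mul (hg.one 1 rfl) (h1.one 1 rfl)
    rw [sq_prod hx (h2.one 5 rfl) (y := g (φ 2) * f2 (φ 2)) (by linear_combination -c3),
      sq_prod hx (h2.one 6 rfl) (y := g (φ 2) * f2 (φ 2)) (by linear_combination -c6)]
  obtain ⟨g, hg⟩ := h.sv hU ![1, 1, 1] ![1, 1, 1, 0, 0, 0, 1] (by decide) (by decide) (by decide)
  have c3 := comb g hg.1 hg.2.1 3
  have c4 := comb g hg.1 hg.2.1 4
  have c5 := comb g hg.1 hg.2.1 5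
  rw [hg.zero 3 rfl, h2.zero 3 rfl] at c3
  rw [hg.zero 4 rfl, h1.zero 4 rfl] at c4
  rw [hg.zero 5 rfl, h0.zero 5 rfl] at c5
  have hx := sq_mul (hg.one 0 rfl) (h0.one 0 rfl)
  have hy := sq_mul (hg.one 1 rfl) (h1.one 1 rfl)
  have hz := sq_mul (hg.one 2 rfl) (h2.one 2 rfl)
  have l01 := sq_prod hx (h1.one 3 rfl) (a := f0 (φ 3)) (y := g (φ 1) * f1 (φ 1))
    (by linear_combination -c3)
  have l02 := sq_prod hx (h2.one 4 rfl) (a := f0 (φ 4)) (y := g (φ 2) * f2 (φ 2))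
    (by linear_combination -c4)
  have l12 := sq_prod hy (h2.one 5 rfl) (a := f1 (φ 5)) (y := g (φ 2) * f2 (φ 2))
    (by linear_combination -c5)
  have hP : (f0 (φ 3) * f1 (φ 3)) * (f0 (φ 4) * f2 (φ 4)) * (f1 (φ 5) * f2 (φ 5)) = 1 := by
    rw [k01, k02, k12]
    calc _ = (f0 (φ 6) * f0 (φ 6)) * (f1 (φ 6) * f1 (φ 6)) * (f2 (φ 6) * f2 (φ 6)) := by ring
      _ = 1 := by rw [h0.one 6 rfl, h1.one 6 rfl, h2.one 6 rfl]; norm_num
  have hN : (f0 (φ 3) * f1 (φ 3)) * (f0 (φ 4) * f2 (φ 4)) * (f1 (φ 5) * f2 (φ 5)) = -1 := by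
    rw [l01, l02, l12]
    calc _ = -(((g (φ 0) * f0 (φ 0)) * (g (φ 0) * f0 (φ 0))) *
          ((g (φ 1) * f1 (φ 1)) * (g (φ 1) * f1 (φ 1))) *
          ((g (φ 2) * f2 (φ 2)) * (g (φ 2) * f2 (φ 2)))) := by ring
      _ = -1 := by rw [hx, hy, hz]; norm_num
  rw [hP] at hN
  norm_num at hN

theorem noF7s {v : E → V} (hU : RC.Uni (Set.range v)) : ¬ HasMinor F7s (bm v) := by
  intro hcon
  obtain ⟨φ, C, h⟩ := mn_of_hasMinor hcon
  obtain ⟨f0, h0⟩ := h.sv hU ![1, 0, 0, 0] ![1, 1, 0, 1, 0, 0, 0] (by decide) (by decide)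
    (by decide)
  obtain ⟨f1, h1⟩ := h.sv hU ![0, 1, 0, 0] ![1, 0, 1, 0, 1, 0, 0] (by decide) (by decide)
    (by decide)
  obtain ⟨f2, h2⟩ := h.sv hU ![0, 0, 1, 0] ![0, 1, 1, 0, 0, 1, 0] (by decide) (by decide)
    (by decide)
  obtain ⟨f3, h3⟩ := h.sv hU ![0, 0, 0, 1] ![1, 1, 1, 0, 0, 0, 1] (by decide) (by decide)
    (by decide)
  have comb : ∀ g ∈ fns v, (∀ e ∈ C, g e = 0) → ∀ j, g (φ j) =
      (g (φ 3) * f0 (φ 3)) * f0 (φ j) + (g (φ 4) * f1 (φ 4)) * f1 (φ j) +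
        (g (φ 5) * f2 (φ 5)) * f2 (φ j) + (g (φ 6) * f3 (φ 6)) * f3 (φ j) := by
    intro g hg hgC j
    have hmem : g - ((g (φ 3) * f0 (φ 3)) • f0 + (g (φ 4) * f1 (φ 4)) • f1 +
        (g (φ 5) * f2 (φ 5)) • f2 + (g (φ 6) * f3 (φ 6)) • f3) ∈ fns v :=
      (fns v).sub_mem hg ((fns v).add_mem ((fns v).add_mem ((fns v).add_mem
        ((fns v).smul_mem _ h0.1) ((fns v).smul_mem _ h1.1)) ((fns v).smul_mem _ h2.1))
          ((fns v).smul_mem _ h3.1))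
    have hv := h.vanish hU {3, 4, 5, 6} (by decide) hmem (fun e he => by
      simp [hgC e he, h0.2.1 e he, h1.2.1 e he, h2.2.1 e he, h3.2.1 e he]) (fun b hb => by
      simp only [Finset.mem_insert, Finset.mem_singleton] at hb
      rcases hb with rfl | rfl | rfl | rfl
      · simp only [Pi.sub_apply, Pi.add_apply, Pi.smul_apply, smul_eq_mul, h1.zero 3 rfl,
          h2.zero 3 rfl, h3.zero 3 rfl]
        linear_combination (-g (φ 3)) * h0.one 3 rfl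
      · simp only [Pi.sub_apply, Pi.add_apply, Pi.smul_apply, smul_eq_mul, h0.zero 4 rfl,
          h2.zero 4 rfl, h3.zero 4 rfl]
        linear_combination (-g (φ 4)) * h1.one 4 rfl
      · simp only [Pi.sub_apply, Pi.add_apply, Pi.smul_apply, smul_eq_mul, h0.zero 5 rfl,
          h1.zero 5 rfl, h3.zero 5 rfl]
        linear_combination (-g (φ 5)) * h2.one 5 rfl
      · simp only [Pi.sub_apply, Pi.add_apply, Pi.smul_apply, smul_eq_mul, h0.zero 6 rfl,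
          h1.zero 6 rfl, h2.zero 6 rfl]
        linear_combination (-g (φ 6)) * h3.one 6 rfl) j
    simp only [Pi.sub_apply, Pi.add_apply, Pi.smul_apply, smul_eq_mul] at hv
    linear_combination hv
  have k0 : f0 (φ 0) * f3 (φ 0) = f0 (φ 1) * f3 (φ 1) := by
    obtain ⟨g, hg⟩ := h.sv hU ![1, 0, 0, 1] ![0, 0, 1, 1, 0, 0, 1] (by decide) (by decide)
      (by decide)
    have c3 := comb g hg.1 hg.2.1 0
    have c6 := comb g hg.1 hg.2.1 1
    rw [hg.zero 0 rfl, hg.zero 4 rfl, hg.zero 5 rfl] at c3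
    rw [hg.zero 1 rfl, hg.zero 4 rfl, hg.zero 5 rfl] at c6
    have hx := sq_mul (hg.one 3 rfl) (h0.one 3 rfl)
    rw [sq_prod hx (h3.one 0 rfl) (y := g (φ 6) * f3 (φ 6)) (by linear_combination -c3),
      sq_prod hx (h3.one 1 rfl) (y := g (φ 6) * f3 (φ 6)) (by linear_combination -c6)]
  have k1 : f1 (φ 0) * f3 (φ 0) = f1 (φ 2) * f3 (φ 2) := by
    obtain ⟨g, hg⟩ := h.sv hU ![0, 1, 0, 1] ![0, 1, 0, 0, 1, 0, 1] (by decide) (by decide)
      (by decide)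
    have c3 := comb g hg.1 hg.2.1 0
    have c6 := comb g hg.1 hg.2.1 2
    rw [hg.zero 0 rfl, hg.zero 3 rfl, hg.zero 5 rfl] at c3
    rw [hg.zero 2 rfl, hg.zero 3 rfl, hg.zero 5 rfl] at c6
    have hx := sq_mul (hg.one 4 rfl) (h1.one 4 rfl)
    rw [sq_prod hx (h3.one 0 rfl) (y := g (φ 6) * f3 (φ 6)) (by linear_combination -c3),
      sq_prod hx (h3.one 2 rfl) (y := g (φ 6) * f3 (φ 6)) (by linear_combination -c6)]
  have k2 : f2 (φ 1) * f3 (φ 1) = f2 (φ 2) * f3 (φ 2) := by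
    obtain ⟨g, hg⟩ := h.sv hU ![0, 0, 1, 1] ![1, 0, 0, 0, 0, 1, 1] (by decide) (by decide)
      (by decide)
    have c3 := comb g hg.1 hg.2.1 1
    have c6 := comb g hg.1 hg.2.1 2
    rw [hg.zero 1 rfl, hg.zero 3 rfl, hg.zero 4 rfl] at c3
    rw [hg.zero 2 rfl, hg.zero 3 rfl, hg.zero 4 rfl] at c6
    have hx := sq_mul (hg.one 5 rfl) (h2.one 5 rfl)
    rw [sq_prod hx (h3.one 1 rfl) (y := g (φ 6) * f3 (φ 6)) (by linear_combination -c3),
      sq_prod hx (h3.one 2 rfl) (y := g (φ 6) * f3 (φ 6)) (by linear_combination -c6)]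
  obtain ⟨g, hg⟩ := h.sv hU ![1, 1, 1, 0] ![0, 0, 0, 1, 1, 1, 0] (by decide) (by decide)
    (by decide)
  have c0 := comb g hg.1 hg.2.1 0
  have c1 := comb g hg.1 hg.2.1 1
  have c2 := comb g hg.1 hg.2.1 2
  rw [hg.zero 0 rfl, hg.zero 6 rfl, h2.zero 0 rfl] at c0
  rw [hg.zero 1 rfl, hg.zero 6 rfl, h1.zero 1 rfl] at c1
  rw [hg.zero 2 rfl, hg.zero 6 rfl, h0.zero 2 rfl] at c2
  have hx := sq_mul (hg.one 3 rfl) (h0.one 3 rfl)
  have hy := sq_mul (hg.one 4 rfl) (h1.one 4 rfl)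
  have hz := sq_mul (hg.one 5 rfl) (h2.one 5 rfl)
  have l01 := sq_prod hx (h1.one 0 rfl) (a := f0 (φ 0)) (y := g (φ 4) * f1 (φ 4))
    (by linear_combination -c0)
  have l02 := sq_prod hx (h2.one 1 rfl) (a := f0 (φ 1)) (y := g (φ 5) * f2 (φ 5))
    (by linear_combination -c1)
  have l12 := sq_prod hy (h2.one 2 rfl) (a := f1 (φ 2)) (y := g (φ 5) * f2 (φ 5))
    (by linear_combination -c2)
  have hN : (f0 (φ 0) * f1 (φ 0)) * (f0 (φ 1) * f2 (φ 1)) * (f1 (φ 2) * f2 (φ 2)) = -1 := by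
    rw [l01, l02, l12]
    calc _ = -(((g (φ 3) * f0 (φ 3)) * (g (φ 3) * f0 (φ 3))) *
          ((g (φ 4) * f1 (φ 4)) * (g (φ 4) * f1 (φ 4))) *
          ((g (φ 5) * f2 (φ 5)) * (g (φ 5) * f2 (φ 5)))) := by ring
      _ = -1 := by rw [hx, hy, hz]; norm_num
  have hP : (f0 (φ 0) * f1 (φ 0)) * (f0 (φ 1) * f2 (φ 1)) * (f1 (φ 2) * f2 (φ 2)) = 1 := by
    calc _ = (f0 (φ 0) * f3 (φ 0)) * (f0 (φ 1) * f3 (φ 1)) *
          ((f1 (φ 0) * f3 (φ 0)) * (f1 (φ 2) * f3 (φ 2))) *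
          ((f2 (φ 1) * f3 (φ 1)) * (f2 (φ 2) * f3 (φ 2))) := by
          have e0 := h3.one 0 rfl
          have e1 := h3.one 1 rfl
          have e2 := h3.one 2 rfl
          calc _ = (f0 (φ 0) * f1 (φ 0)) * (f0 (φ 1) * f2 (φ 1)) * (f1 (φ 2) * f2 (φ 2)) *
                (1 * 1 * 1) := by ring
            _ = (f0 (φ 0) * f1 (φ 0)) * (f0 (φ 1) * f2 (φ 1)) * (f1 (φ 2) * f2 (φ 2)) *
                ((f3 (φ 0) * f3 (φ 0)) * (f3 (φ 1) * f3 (φ 1)) * (f3 (φ 2) * f3 (φ 2))) := by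
                rw [e0, e1, e2]
            _ = _ := by ring
      _ = ((f0 (φ 1) * f0 (φ 1)) * (f3 (φ 1) * f3 (φ 1))) *
          ((f1 (φ 2) * f1 (φ 2)) * (f3 (φ 2) * f3 (φ 2))) *
          ((f2 (φ 2) * f2 (φ 2)) * (f3 (φ 2) * f3 (φ 2))) := by
          rw [k0, k1, k2]; ring
      _ = 1 := by
          rw [h0.one 1 rfl, h1.one 2 rfl, h2.one 2 rfl, h3.one 1 rfl, h3.one 2 rfl]; norm_num
  rw [hP] at hN
  norm_num at hN

theorem noF {v : E → V} (hU : RC.Uni (Set.range v)) : NoF (bm v) := ⟨noF7 hU, noF7s hU⟩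

end SEY.UB
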