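import Pool.Agent.Helper25.SEY.Frame
import Pool.Agent.Helper71.SEYApi2

/-!
Block INTER (UB-5).  In a 3-connected graph the vertex stars are minimal rows.

`ind (star M.S h t u)` is a row by `IsGr.star_mem`, nonzero by `hg.ne`.  Let `w = cob M.S h t π` be a
nonzero row with support inside the star of `u`.  Adding the constant `π u` (`cob` of a constant
is zero) we may assume `π u = 0`.  Put `X = {x ∈ U | π x = 1}`, `Y = {x ∈ U | x ≠ u, π x = 0}`.  An
edge joining `X` and `Y` would be in the support of `w` but not in the star of `u`.  `X` is nonempty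
since `w ≠ 0`.  If `Y` is empty then `π x = 1` for all `x ∈ U`, `x ≠ u`, and `w` is the indicator of
the star of `u` (the ends of an edge are different and lie in `U`).  If `Y` is nonempty,
`IsGr.sep` with `U \ (X ∪ Y) = {u}` gives `lam A + 1 ≤ 1` for the set `A` of edges meeting `X`, so
`lam A = 0`; by `TC.of_lam_zero` `A = ∅` (contradiction with `hg.ne` at a vertex of `X`) or
`A = M.S` (contradiction with `hg.ne` at a vertex of `Y`: this edge would join `X` and `Y`).
-/

set_option autoImplicit false

namespace SEY.UB

open Finset

variable {E : Type} [Fintype E] [DecidableEq E] {W : Type} [Fintype W] [DecidableEq W]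

theorem star_isMin {M : BM E} (hTC : M.TC) {U : Finset W} {h t : E → W} (hg : IsGr M U h t)
    {u : W} (hu : u ∈ U) : IsMin M.R (ind (star M.S h t u)) := by
  refine ⟨hg.star_mem hu, ?_, ?_⟩
  · rw [Ne, ind_eq_zero]
    obtain ⟨e, he, hue⟩ := hg.ne u hu
    intro h0
    have : e ∈ star M.S h t u := mem_star.2 ⟨he, hue⟩
    rw [h0] at this
    simp at this
  · intro w hw hw0 hws
    rw [spt_ind] at hws
    obtain ⟨A, hAU, huA, rfl⟩ := hg.exists_indV_notMem u hw
    have hA0 : A.Nonempty := by
      rw [Finset.nonempty_iff_ne_empty]
      rintro rfl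
      apply hw0
      have : (indV (∅ : Finset W) : W → ZMod 2) = 0 := by
        funext v
        exact indV_notMem (by simp)
      rw [this, cob_zero]
    have hno : ∀ x ∈ M.S, ∀ a ∈ A, ∀ b ∈ U \ insert u A, ¬ Jn h t x a b := by
      intro x hx a ha b hb hj
      rw [Finset.mem_sdiff, Finset.mem_insert, not_or] at hb
      have hia : Inc h t a x := by
        rcases hj with ⟨h1, h2⟩ | ⟨h1, h2⟩
        · exact Or.inl h1
        · exact Or.inr h2
      have hib : Inc h t b x := by
        rcases hj with ⟨h1, h2⟩ | ⟨h1, h2⟩
        · exact Or.inr h2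
        · exact Or.inl h1
      have h1 : cob M.S h t (indV A) x = 1 := cob_indV_one hx ha hb.2.2 hia hib
      have h2 : x ∈ star M.S h t u := hws (mem_spt'.2 h1)
      have h3 := (mem_star.1 h2).2
      have hab : a ≠ b := by
        rintro rfl
        exact hb.2.2 ha
      rcases inc_le hia hib h3 hab with h4 | h4
      · exact huA (h4 ▸ ha)
      · exact hb.2.1 h4.symm
    by_cases hY : (U \ insert u A).Nonempty
    · exfalso
      have hsep := hg.sep A (U \ insert u A) hAU Finset.sdiff_subset (by
        rw [Finset.disjoint_left]
        intro x hx hx'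
        rw [Finset.mem_sdiff, Finset.mem_insert, not_or] at hx'
        exact hx'.2.2 hx) hA0 hY hno
      have hcard : (U \ (A ∪ (U \ insert u A))).card ≤ 1 := by
        have : U \ (A ∪ (U \ insert u A)) ⊆ {u} := by
          intro x hx
          simp only [Finset.mem_sdiff, Finset.mem_union, Finset.mem_insert, not_or, not_and,
            not_not, Finset.mem_singleton] at hx ⊢
          obtain ⟨h1, h2, h3⟩ := hx
          by_contra h4
          exact h2 (h3 h1 h4)
        exact (Finset.card_le_card this).trans (by simp)
      have hlam : M.lam (M.S.filter (fun x => h x ∈ A ∨ t x ∈ A)) = 0 := by omega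
      rcases hTC.of_lam_zero (Finset.filter_subset _ _) hlam with h1 | h1
      · obtain ⟨a, ha⟩ := hA0
        obtain ⟨e, he, hae⟩ := hg.ne a (hAU ha)
        have : e ∈ M.S.filter (fun x => h x ∈ A ∨ t x ∈ A) := by
          rw [Finset.mem_filter]
          refine ⟨he, ?_⟩
          rcases hae with h2 | h2
          · exact Or.inl (h2 ▸ ha)
          · exact Or.inr (h2 ▸ ha)
        rw [h1] at this
        simp at this
      · obtain ⟨b, hb⟩ := hY
        obtain ⟨e, he, hbe⟩ := hg.ne b (Finset.sdiff_subset hb)
        have h2 : e ∈ M.S.filter (fun x => h x ∈ A ∨ t x ∈ A) := by rw [h1]; exact he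
        rw [Finset.mem_filter] at h2
        have hbA : b ∉ A := by
          rw [Finset.mem_sdiff, Finset.mem_insert, not_or] at hb
          exact hb.2.2
        rcases hbe with h3 | h3
        · rcases h2.2 with h4 | h4
          · exact hbA (h3 ▸ h4)
          · exact hno e he _ h4 b hb (Or.inr ⟨h3, rfl⟩)
        · rcases h2.2 with h4 | h4
          · exact hno e he _ h4 b hb (Or.inl ⟨rfl, h3⟩)
          · exact hbA (h3 ▸ h4)
    · rw [Finset.not_nonempty_iff_eq_empty, Finset.sdiff_eq_empty_iff_subset] at hY
      have hA : A = U \ {u} := by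
        ext x
        simp only [Finset.mem_sdiff, Finset.mem_singleton]
        constructor
        · intro hx
          exact ⟨hAU hx, fun h' => huA (h' ▸ hx)⟩
        · rintro ⟨h1, h2⟩
          rcases Finset.mem_insert.1 (hY h1) with h3 | h3
          · exact absurd h3 h2
          · exact h3
      rw [hA, hg.cob_sdiff, hg.cob_singleton]

end SEY.UB
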